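import Pool.Agent.H567R2.MN.Stubs
import Pool.Agent.H567R2.MMF.TM

/-! Task AI: integrals of products of tensor functions. -/

namespace H567MM.P

open MeasureTheory Filter Topology

theorem AI_aux_prod {X R M : Type*} [CommRing R] [AddCommGroup M] [Module R M] (S : X → X)
    (φ : X → Rˣ) (α : X → Dual M) {s : ℕ} (A : Fin s → Set X) (m : Fin s → M) (n : Fin s → ℕ)
    (x : X) (y : Dual M) :
    ∏ j, ten (A j) (m j) ((askew S φ α)^[n j] (x, y)) =
      ((∏ j, (A j).indicator (fun _ => (1 : ℂ)) (S^[n j] x)) *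
        ∏ j, ((ac S φ α (n j) x (m j) : Circle) : ℂ)) *
        ((y (∑ j, cv S φ (n j) x • m j) : Circle) : ℂ) := by
  have h1 : ∀ j, ten (A j) (m j) ((askew S φ α)^[n j] (x, y)) =
      ((A j).indicator (fun _ => (1 : ℂ)) (S^[n j] x) * ((ac S φ α (n j) x (m j) : Circle) : ℂ)) *
        ((y (cv S φ (n j) x • m j) : Circle) : ℂ) := by
    intro j
    rw [H567MM.askew_iterate, mul_assoc]
    have h3 : (ac S φ α (n j) x * act (coc S φ (n j) x) y) (m j) =
        ac S φ α (n j) x (m j) * y (cv S φ (n j) x • m j) := rfl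
    have h4 : (((ac S φ α (n j) x * act (coc S φ (n j) x) y) (m j) : Circle) : ℂ) =
        ((ac S φ α (n j) x (m j) : Circle) : ℂ) * ((y (cv S φ (n j) x • m j) : Circle) : ℂ) := by
      rw [h3]; rfl
    rw [← h4]
    rfl
  rw [Finset.prod_congr rfl (fun j _ => h1 j), Finset.prod_mul_distrib, Finset.prod_mul_distrib]
  congr 1
  have h2 : y (∑ j, cv S φ (n j) x • m j) = ∏ j, y (cv S φ (n j) x • m j) := by
    have := map_prod y.toMonoidHom
      (fun j => Multiplicative.ofAdd (cv S φ (n j) x • m j)) Finset.univ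
    simpa [← ofAdd_sum] using this
  rw [h2]
  exact (map_prod Circle.coeHom _ _).symm

theorem ten_int_le {X R M : Type*} [MeasurableSpace X] (μ : Measure X)
    [IsProbabilityMeasure μ] (S : X → X) (hS : MeasurePreserving S μ μ)
    [CommRing R] [AddCommGroup M] [Module R M] [Countable M] (φ : X → Rˣ)
    (hφ : ∀ m m' : M, MeasurableSet {x | (φ x : R) • m = m'}) (α : X → Dual M)
    (hα : Measurable α) (ν : Measure (Dual M)) (hν : IsHaarProb ν) {s : ℕ}
    (A : Fin s → Set X) (hA : ∀ j, MeasurableSet (A j)) (m : Fin s → M) (n : Fin s → ℕ) :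
    ‖∫ z, ∏ j, ten (A j) (m j) ((askew S φ α)^[n j] z) ∂(μ.prod ν)‖ ≤
      μ.real {x | ∑ j, cv S φ (n j) x • m j = 0} := by
  classical
  haveI := hν.1
  have hT := H567MM.askew_measurePreserving (M := M) μ S hS φ hφ α hα ν hν
  have hmeas : Measurable
      (fun z : X × Dual M => ∏ j, ten (A j) (m j) ((askew S φ α)^[n j] z)) := by
    apply Finset.measurable_prod
    intro j _
    exact (TM_aux_ten_meas (A j) (hA j) (m j)).comp (hT.measurable.iterate (n j))
  have hint : Integrable
      (fun z : X × Dual M => ∏ j, ten (A j) (m j) ((askew S φ α)^[n j] z)) (μ.prod ν) := by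
    refine Integrable.of_bound hmeas.aestronglyMeasurable 1 (ae_of_all _ fun z => ?_)
    rw [norm_prod]
    exact Finset.prod_le_one (fun j _ => norm_nonneg _) fun j _ => TM_aux_ten_le _ _ _
  have hI : ∫ z, ∏ j, ten (A j) (m j) ((askew S φ α)^[n j] z) ∂(μ.prod ν) =
      ∫ x, ((∏ j, (A j).indicator (fun _ => (1 : ℂ)) (S^[n j] x)) *
        ∏ j, ((ac S φ α (n j) x (m j) : Circle) : ℂ)) *
        (if ∑ j, cv S φ (n j) x • m j = 0 then (1 : ℂ) else 0) ∂μ := by
    rw [integral_prod _ hint]
    congr 1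
    ext x
    have h1 : ∀ y : Dual M, ∏ j, ten (A j) (m j) ((askew S φ α)^[n j] (x, y)) =
      ((∏ j, (A j).indicator (fun _ => (1 : ℂ)) (S^[n j] x)) *
        ∏ j, ((ac S φ α (n j) x (m j) : Circle) : ℂ)) *
        ((y (∑ j, cv S φ (n j) x • m j) : Circle) : ℂ) := fun y => AI_aux_prod S φ α A m n x y
    simp only [h1]
    rw [integral_const_mul, TM_aux_int_char ν hν]
  have hset : MeasurableSet {x | ∑ i, cv S φ (n i) x • m i = 0} := by
    have h3 : {x | ∑ i, cv S φ (n i) x • m i = 0} =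
        ⋃ c : {c : Fin s → M // ∑ i, c i = 0}, ⋂ i, {x | cv S φ (n i) x • m i = c.1 i} := by
      ext x
      simp only [Set.mem_setOf_eq, Set.mem_iUnion, Set.mem_iInter]
      constructor
      · intro h
        exact ⟨⟨fun i => cv S φ (n i) x • m i, h⟩, fun i => rfl⟩
      · rintro ⟨⟨c, hc⟩, h⟩
        rw [← hc]
        exact Finset.sum_congr rfl fun i _ => h i
    rw [h3]
    exact MeasurableSet.iUnion fun c => MeasurableSet.iInter fun i =>
      H567MM.cv_meas S hS.measurable φ hφ _ _ _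
  rw [hI]
  calc ‖∫ x, ((∏ j, (A j).indicator (fun _ => (1 : ℂ)) (S^[n j] x)) *
        ∏ j, ((ac S φ α (n j) x (m j) : Circle) : ℂ)) *
        (if ∑ j, cv S φ (n j) x • m j = 0 then (1 : ℂ) else 0) ∂μ‖ ≤
        ∫ x, {x | ∑ i, cv S φ (n i) x • m i = 0}.indicator (fun _ => (1 : ℝ)) x ∂μ := by
        apply norm_integral_le_of_norm_le
        · exact (integrable_const (1 : ℝ)).indicator hset
        · refine ae_of_all _ fun x => ?_
          by_cases h3 : ∑ j, cv S φ (n j) x • m j = 0
          · rw [if_pos h3, mul_one, norm_mul, norm_prod, norm_prod,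
              Set.indicator_of_mem (show x ∈ {x | ∑ i, cv S φ (n i) x • m i = 0} from h3)]
            have e1 : ∏ j, ‖((ac S φ α (n j) x (m j) : Circle) : ℂ)‖ = 1 :=
              Finset.prod_eq_one fun j _ => Circle.norm_coe _
            rw [e1, mul_one]
            apply Finset.prod_le_one (fun j _ => norm_nonneg _)
            intro j _
            by_cases h4 : S^[n j] x ∈ A j
            · simp [h4]
            · simp [h4]
          · rw [if_neg h3, mul_zero, norm_zero]
            exact Set.indicator_nonneg (fun _ _ => zero_le_one) x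
    _ = μ.real {x | ∑ i, cv S φ (n i) x • m i = 0} := by
        rw [integral_indicator hset]
        simp

theorem ten_int_zero {X R M : Type*} [MeasurableSpace X] (μ : Measure X)
    [IsProbabilityMeasure μ] (S : X → X) (hS : MeasurePreserving S μ μ)
    [CommRing R] [AddCommGroup M] [Module R M] [Countable M] (φ : X → Rˣ) (α : X → Dual M)
    (ν : Measure (Dual M)) (hν : IsHaarProb ν) {s : ℕ}
    (A : Fin s → Set X) (hA : ∀ j, MeasurableSet (A j)) (n : Fin s → ℕ) :
    ∫ z, ∏ j, ten (A j) (0 : M) ((askew S φ α)^[n j] z) ∂(μ.prod ν) =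
      ((μ.real (⋂ j, S^[n j] ⁻¹' A j) : ℝ) : ℂ) := by
  haveI := hν.1
  have h3 : ∀ z : X × Dual M, ∏ j, ten (A j) (0 : M) ((askew S φ α)^[n j] z) =
      (⋂ j, S^[n j] ⁻¹' A j).indicator (fun _ => (1 : ℂ)) z.1 := by
    rintro ⟨x, y⟩
    rw [AI_aux_prod S φ α A (fun _ => 0) n x y]
    have e1 : ∏ j : Fin s, ((ac S φ α (n j) x (0 : M) : Circle) : ℂ) = 1 :=
      Finset.prod_eq_one fun j _ => by
        rw [AddChar.map_zero_eq_one]; rfl
    have e2 : ((y (∑ j : Fin s, cv S φ (n j) x • (0 : M)) : Circle) : ℂ) = 1 := by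
      simp
    rw [e1, e2, mul_one, mul_one]
    by_cases h5 : x ∈ ⋂ j, S^[n j] ⁻¹' A j
    · rw [Set.indicator_of_mem h5]
      apply Finset.prod_eq_one
      intro j _
      have := Set.mem_iInter.1 h5 j
      rw [Set.indicator_of_mem (show S^[n j] x ∈ A j from this)]
    · rw [Set.indicator_of_notMem h5]
      rw [Set.mem_iInter, not_forall] at h5
      obtain ⟨j, hj⟩ := h5
      apply Finset.prod_eq_zero (Finset.mem_univ j)
      rw [Set.indicator_of_notMem]
      exact hj
  simp only [h3]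
  have h4 := integral_fun_fst (μ := μ) (ν := ν)
    (fun x => (⋂ j, S^[n j] ⁻¹' A j).indicator (fun _ => (1 : ℂ)) x)
  rw [h4, integral_indicator]
  · simp
  · exact MeasurableSet.iInter fun j => (hS.measurable.iterate (n j)) (hA j)

theorem ten_integral_zero {X M : Type*} [MeasurableSpace X] (μ : Measure X)
    [IsProbabilityMeasure μ] [AddCommGroup M] [Countable M] (ν : Measure (Dual M))
    (hν : IsHaarProb ν) (A : Set X) (hA : MeasurableSet A) :
    ∫ z, ten A (0 : M) z ∂(μ.prod ν) = ((μ.real A : ℝ) : ℂ) := by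
  classical
  rw [TM_aux_ten_int μ ν hν A hA 0, if_pos rfl]

theorem ten_integral_ne {X M : Type*} [MeasurableSpace X] (μ : Measure X)
    [IsProbabilityMeasure μ] [AddCommGroup M] [Countable M] (ν : Measure (Dual M))
    (hν : IsHaarProb ν) (A : Set X) (hA : MeasurableSet A) (m : M) (hm : m ≠ 0) :
    ∫ z, ten A m z ∂(μ.prod ν) = 0 := by
  classical
  rw [TM_aux_ten_int μ ν hν A hA m, if_neg hm]

end H567MM.P
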