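import Pool.Agent.H567R2.MN.Stubs
import Pool.Agent.H567R2.MMF.SP

/-! # AP: the affine skew product preserves the measure -/

namespace H567MM.P

open MeasureTheory Filter Topology

theorem askew_measurePreserving {X R M : Type*} [MeasurableSpace X] (μ : Measure X)
    [IsProbabilityMeasure μ] (S : X → X) (hS : MeasurePreserving S μ μ)
    [CommRing R] [AddCommGroup M] [Module R M] [Countable M] (φ : X → Rˣ)
    (hφ : ∀ m m' : M, MeasurableSet {x | (φ x : R) • m = m'}) (α : X → Dual M)
    (hα : Measurable α) (ν : Measure (Dual M)) (hν : IsHaarProb ν) :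
    MeasurePreserving (askew S φ α) (μ.prod ν) (μ.prod ν) := by
  have := hν.1
  have hm : Measurable (Function.uncurry (fun (x : X) (y : Dual M) => α x * act (φ x) y)) :=
    SP_aux_mul.comp ((hα.comp measurable_fst).prodMk (SP_aux_skew_meas φ hφ))
  refine hS.skew_product hm (Eventually.of_forall fun x => ?_)
  have h1 : (fun y : Dual M => α x * act (φ x) y) = (fun y => α x * y) ∘ act (φ x) := rfl
  show Measure.map (fun y : Dual M => α x * act (φ x) y) ν = ν
  rw [h1, ← Measure.map_map (hν.2 (α x)).measurable (SP_aux_act_meas (φ x)),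
    SP_aux_act_haar (φ x) hν, (hν.2 (α x)).map_eq]

end H567MM.P
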