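import Pool.Agent.H567R2.MN.Stubs

/-! AT: tightness modulo finitely many subgroups. -/

namespace H567MM.P

open MeasureTheory Filter Topology

theorem AT_aux_hom {X Γ G : Type*} [CommGroup Γ] [CommGroup G] (f : Γ →* G) (S : X → X)
    (φ : X → Γ) (n : ℕ) (x : X) : coc S (fun x => f (φ x)) n x = f (coc S φ n x) := by
  induction n with
  | zero => simp [coc]
  | succ n ih => simp only [coc]; rw [ih, map_mul]

theorem AT_aux_meas {X Γ : Type*} [MeasurableSpace X] [CommGroup Γ] (D : Subgroup Γ)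
    [Countable (Γ ⧸ D)] [MeasurableSpace (Γ ⧸ D)] (φ : X → Γ)
    (h : ∀ g : Γ, MeasurableSet {x | φ x / g ∈ D}) :
    Measurable (fun x => QuotientGroup.mk' D (φ x)) := by
  refine measurable_to_countable' fun q => ?_
  obtain ⟨g, rfl⟩ := QuotientGroup.mk'_surjective D q
  have e : (fun x => QuotientGroup.mk' D (φ x)) ⁻¹' {QuotientGroup.mk' D g} =
      {x | φ x / g ∈ D} := by
    ext x
    simp only [Set.mem_preimage, Set.mem_singleton_iff]
    exact QuotientGroup.eq_iff_div_mem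
  rw [e]
  exact h g

theorem abs_tight {X Γ : Type*} [MeasurableSpace X] (μ : Measure X)
    [IsProbabilityMeasure μ] (S : X → X) (hS : MeasurePreserving S μ μ) (hmix : MixOrd μ S 1)
    [CommGroup Γ] {s : ℕ} (H : Fin s → Subgroup Γ) (hH : ∀ b, Countable (Γ ⧸ H b)) (φ : X → Γ)
    (hφ : ∀ b, ∀ g : Γ, MeasurableSet {x | φ x / g ∈ H b})
    (hcoll : ∀ b, ∃ c : ℝ, 0 < c ∧ ∀ N₀ : ℕ, ∃ N ≥ N₀, c * N ≤
      ∑ n ∈ Finset.range N, (μ.prod μ).real {z | coc S φ n z.1 / coc S φ n z.2 ∈ H b}) :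
    ∃ l : Γ, ∀ ε : ℝ, 0 < ε → ∃ C : Finset Γ, ∀ n : ℕ,
      μ.real {x | ¬ ∃ c ∈ C, ∀ b, coc S φ n x / (l ^ n * c) ∈ H b} < ε := by
  classical
  have hS2 : MeasurePreserving (Prod.map S S) (μ.prod μ) (μ.prod μ) := hS.prod hS
  have mix2 : MixOrd (μ.prod μ) (Prod.map S S) 1 := mix_prod μ μ S S hS hS hmix hmix
  have erg2 : Ergodic (Prod.map S S) (μ.prod μ) := ergodic_of_mix _ _ hS2 mix2
  -- tightness in each quotient
  have hb : ∀ b, ∃ K : Finset (Γ ⧸ H b), ∀ n : ℕ, (μ.prod μ).real {z |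
      (QuotientGroup.mk' (H b) (coc S φ n z.1 / coc S φ n z.2)) ∉ K} < 1 / (2 * (s + 1)) := by
    intro b
    haveI := hH b
    letI : MeasurableSpace (Γ ⧸ H b) := ⊤
    haveI : DiscreteMeasurableSpace (Γ ⧸ H b) := ⟨fun _ => trivial⟩
    have hm := AT_aux_meas (H b) φ (hφ b)
    have hdiv : Measurable (fun q : (Γ ⧸ H b) × (Γ ⧸ H b) => q.1 / q.2) :=
      measurable_of_countable _
    have hψ : Measurable (fun z : X × X => QuotientGroup.mk' (H b) (φ z.1) /
        QuotientGroup.mk' (H b) (φ z.2)) :=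
      hdiv.comp ((hm.comp measurable_fst).prodMk (hm.comp measurable_snd))
    have hcoc : ∀ (n : ℕ) (z : X × X), coc (Prod.map S S)
        (fun z : X × X => QuotientGroup.mk' (H b) (φ z.1) / QuotientGroup.mk' (H b) (φ z.2)) n z =
        QuotientGroup.mk' (H b) (coc S φ n z.1 / coc S φ n z.2) := by
      intro n z
      have h1 := CA_aux_coc S (fun x => QuotientGroup.mk' (H b) (φ x)) n z
      rw [AT_aux_hom, AT_aux_hom, ← map_div] at h1
      exact h1
    obtain ⟨c, hc, h⟩ := hcoll b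
    obtain ⟨K, hK⟩ := tight_of_rec (μ.prod μ) (Prod.map S S) erg2 _ hψ c hc (by
      intro N₀
      obtain ⟨N, hN, hN2⟩ := h N₀
      refine ⟨N, hN, hN2.trans (le_of_eq (Finset.sum_congr rfl ?_))⟩
      intro n _
      congr 1
      ext z
      show coc S φ n z.1 / coc S φ n z.2 ∈ H b ↔ _ = _
      rw [hcoc]
      exact (QuotientGroup.eq_one_iff _).symm) (1 / (2 * (s + 1))) (by positivity)
    refine ⟨K, fun n => ?_⟩
    have h2 := hK n
    simp only [hcoc] at h2
    exact h2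
  choose K hK using hb
  -- the common quotient
  obtain ⟨D, hD⟩ : ∃ D : Subgroup Γ, D = ⨅ b, H b := ⟨_, rfl⟩
  have hDmem : ∀ g : Γ, g ∈ D ↔ ∀ b, g ∈ H b := by
    intro g
    rw [hD, Subgroup.mem_iInf]
  have hDle : ∀ b, D ≤ (H b).comap (MonoidHom.id Γ) := by
    intro b g hg
    exact (hDmem g).1 hg b
  obtain ⟨π, hπ⟩ : ∃ π : ∀ b, (Γ ⧸ D) →* (Γ ⧸ H b), π = fun b =>
    QuotientGroup.map D (H b) (MonoidHom.id Γ) (hDle b) := ⟨_, rfl⟩
  have hπmk : ∀ b (g : Γ), π b (QuotientGroup.mk' D g) = QuotientGroup.mk' (H b) g := by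
    intro b g
    rw [hπ]
    rfl
  have hinj : Function.Injective (fun (q : Γ ⧸ D) b => π b q) := by
    intro q q' h
    obtain ⟨g, rfl⟩ := QuotientGroup.mk'_surjective D q
    obtain ⟨g', rfl⟩ := QuotientGroup.mk'_surjective D q'
    have h1 : ∀ b, QuotientGroup.mk' (H b) g = QuotientGroup.mk' (H b) g' := by
      intro b
      have := congrFun h b
      simp only [hπmk] at this
      exact this
    refine QuotientGroup.eq_iff_div_mem.2 ((hDmem _).2 fun b => ?_)
    exact QuotientGroup.eq_iff_div_mem.1 (h1 b)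
  haveI := hH
  haveI : Countable (Γ ⧸ D) := hinj.countable
  letI : MeasurableSpace (Γ ⧸ D) := ⊤
  haveI : DiscreteMeasurableSpace (Γ ⧸ D) := ⟨fun _ => trivial⟩
  have hm' : Measurable (fun x => QuotientGroup.mk' D (φ x)) := by
    refine AT_aux_meas D φ fun g => ?_
    have e : {x | φ x / g ∈ D} = ⋂ b, {x | φ x / g ∈ H b} := by
      ext x
      rw [Set.mem_iInter]
      exact hDmem _
    rw [e]
    exact MeasurableSet.iInter fun b => hφ b g
  have hfin : {q : Γ ⧸ D | ∀ b, π b q ∈ K b}.Finite := by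
    have h1 : (Set.pi Set.univ (fun b => ((K b : Finset (Γ ⧸ H b)) : Set (Γ ⧸ H b)))).Finite :=
      Set.Finite.pi fun b => (K b).finite_toSet
    refine (h1.preimage (hinj.injOn (s := (fun (q : Γ ⧸ D) b => π b q) ⁻¹'
      (Set.pi Set.univ (fun b => ((K b : Finset (Γ ⧸ H b)) : Set (Γ ⧸ H b))))))).subset ?_
    intro q hq b _
    exact hq b
  have hcm : ∀ n, Measurable (coc S (fun x => QuotientGroup.mk' D (φ x)) n) := fun n =>
    coc_measurable S hS.measurable _ hm' n
  have hdivD : Measurable (fun q : (Γ ⧸ D) × (Γ ⧸ D) => q.1 / q.2) := measurable_of_countable _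
  have hhalf : ∀ n : ℕ, 1 / 2 ≤ (μ.prod μ).real {z |
      coc S (fun x => QuotientGroup.mk' D (φ x)) n z.1 /
        coc S (fun x => QuotientGroup.mk' D (φ x)) n z.2 ∈ hfin.toFinset} := by
    intro n
    have hmeas : MeasurableSet {z : X × X |
        coc S (fun x => QuotientGroup.mk' D (φ x)) n z.1 /
        coc S (fun x => QuotientGroup.mk' D (φ x)) n z.2 ∈ hfin.toFinset} := by
      have h1 : Measurable (fun z : X × X => coc S (fun x => QuotientGroup.mk' D (φ x)) n z.1 /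
        coc S (fun x => QuotientGroup.mk' D (φ x)) n z.2) :=
        hdivD.comp (((hcm n).comp measurable_fst).prodMk ((hcm n).comp measurable_snd))
      exact h1 (MeasurableSet.of_discrete (s := {q | q ∈ hfin.toFinset}))
    have hsub : {z : X × X | coc S (fun x => QuotientGroup.mk' D (φ x)) n z.1 /
        coc S (fun x => QuotientGroup.mk' D (φ x)) n z.2 ∈ hfin.toFinset}ᶜ ⊆
        ⋃ b, {z : X × X | (QuotientGroup.mk' (H b) (coc S φ n z.1 / coc S φ n z.2)) ∉ K b} := by
      intro z hz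
      have hz' : ¬ (coc S (fun x => QuotientGroup.mk' D (φ x)) n z.1 /
        coc S (fun x => QuotientGroup.mk' D (φ x)) n z.2 ∈ hfin.toFinset) := hz
      rw [Set.Finite.mem_toFinset, AT_aux_hom, AT_aux_hom, ← map_div] at hz'
      have hz2 : ¬ ∀ b, π b (QuotientGroup.mk' D (coc S φ n z.1 / coc S φ n z.2)) ∈ K b := hz'
      rw [not_forall] at hz2
      obtain ⟨b, hb⟩ := hz2
      rw [hπmk] at hb
      exact Set.mem_iUnion.2 ⟨b, hb⟩
    have h3 : (μ.prod μ).real ({z : X × X | coc S (fun x => QuotientGroup.mk' D (φ x)) n z.1 /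
        coc S (fun x => QuotientGroup.mk' D (φ x)) n z.2 ∈ hfin.toFinset}ᶜ) ≤ 1 / 2 := by
      calc _ ≤ (μ.prod μ).real (⋃ b, {z : X × X |
            (QuotientGroup.mk' (H b) (coc S φ n z.1 / coc S φ n z.2)) ∉ K b}) :=
            measureReal_mono hsub
        _ ≤ ∑ b, (μ.prod μ).real {z : X × X |
            (QuotientGroup.mk' (H b) (coc S φ n z.1 / coc S φ n z.2)) ∉ K b} :=
            measureReal_iUnion_fintype_le _
        _ ≤ ∑ _b : Fin s, 1 / (2 * ((s : ℝ) + 1)) := Finset.sum_le_sum fun b _ => (hK b n).le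
        _ = s * (1 / (2 * ((s : ℝ) + 1))) := by
            rw [Finset.sum_const, Finset.card_univ, Fintype.card_fin, nsmul_eq_mul]
        _ ≤ 1 / 2 := by
            rw [mul_one_div, div_le_div_iff₀ (by positivity) (by norm_num)]
            linarith
    rw [probReal_compl_eq_one_sub hmeas] at h3
    linarith
  obtain ⟨l', hl'⟩ := coll_tight μ S hS hmix (fun x => QuotientGroup.mk' D (φ x)) hm'
    hfin.toFinset hhalf
  obtain ⟨l, rfl⟩ := QuotientGroup.mk'_surjective D l'
  refine ⟨l, fun ε hε => ?_⟩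
  obtain ⟨C', hC'⟩ := hl' ε hε
  refine ⟨C'.image Quotient.out, fun n => lt_of_le_of_lt (measureReal_mono ?_) (hC' n)⟩
  intro x hx hx2
  obtain ⟨c', hc', e⟩ := hx2
  refine hx ⟨Quotient.out c', Finset.mem_image_of_mem _ hc', fun b => ?_⟩
  have hout : QuotientGroup.mk' D (Quotient.out c') = c' := Quotient.out_eq' c'
  rw [AT_aux_hom, ← hout, ← map_pow, ← map_mul] at e
  exact (hDmem _).1 (QuotientGroup.eq_iff_div_mem.1 e) b

end H567MM.P
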