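import Pool.Agent.H567R2.MN.Defs
import Pool.Agent.H567R2.MMF.ME
import Pool.Agent.H567R2.MMF.CB

namespace H567MM.P

open MeasureTheory Filter Topology
open scoped Pointwise

theorem exists_cob_mod {Ω G : Type*} [MeasurableSpace Ω] (P : Measure Ω)
    [IsProbabilityMeasure P] (S : Ω → Ω) (hS : Ergodic S P) [CommGroup G]
    [Countable G] [MeasurableSpace G] [DiscreteMeasurableSpace G] (ψ : Ω → G)
    (hψ : Measurable ψ) (B : Set (Ω × G)) (hB : MeasurableSet B)
    (h0 : (P.prod Measure.count) B ≠ 0) (h1 : (P.prod Measure.count) B ≠ ⊤)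
    (hinv : ∀ᵐ ω ∂P, ∀ g : G, ((ω, g) ∈ B ↔ (S ω, g * ψ ω) ∈ B)) :
    ∃ H : Subgroup G, Finite H ∧ ∃ u : Ω → G, Measurable u ∧
      ∀ᵐ ω ∂P, u (S ω) / (u ω * ψ ω) ∈ H := by
  classical
  have hBg : ∀ g, MeasurableSet {ω | (ω, g) ∈ B} := fun g => measurable_prodMk_right hB
  set F : Ω → Set G := fun ω => Prod.mk ω ⁻¹' B with hF
  set fs : Ω → Finset G := fun ω => if h : (F ω).Finite then h.toFinset else ∅ with hfs
  have hfin : ∀ ω, (F ω).Finite → ((fs ω : Finset G) : Set G) = F ω := by
    intro ω h
    simp only [hfs, dif_pos h, Set.Finite.coe_toFinset]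
  have hset : ∀ ω (s : Finset G), s.Nonempty → (fs ω = s ↔ ∀ g, ((ω, g) ∈ B ↔ g ∈ s)) := by
    intro ω s hs
    constructor
    · intro h g
      have hf : (F ω).Finite := by
        by_contra hc
        simp only [hfs, dif_neg hc] at h
        exact hs.ne_empty h.symm
      have h2 := hfin ω hf
      rw [h] at h2
      have : g ∈ (s : Set G) ↔ g ∈ F ω := by rw [h2]
      rw [Finset.mem_coe] at this
      exact this.symm
    · intro h
      have e : F ω = (s : Set G) := by
        ext g
        exact h g
      have hf : (F ω).Finite := by rw [e]; exact s.finite_toSet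
      have h2 := hfin ω hf
      rw [e] at h2
      exact Finset.coe_injective h2
  have hms : ∀ s : Finset G, s.Nonempty → MeasurableSet {ω | fs ω = s} := by
    intro s hs
    have e : {ω | fs ω = s} = ⋂ g : G, {ω | (ω, g) ∈ B ↔ g ∈ s} := by
      ext ω
      simp only [Set.mem_ofPred_eq, Set.mem_iInter]
      exact hset ω s hs
    rw [e]
    refine MeasurableSet.iInter (fun g => ?_)
    by_cases hg : g ∈ s
    · have : {ω | (ω, g) ∈ B ↔ g ∈ s} = {ω | (ω, g) ∈ B} := by
        ext ω; simp [hg]
      rw [this]; exact hBg g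
    · have : {ω | (ω, g) ∈ B ↔ g ∈ s} = {ω | (ω, g) ∈ B}ᶜ := by
        ext ω; simp [hg]
      rw [this]; exact (hBg g).compl
  have hm : ∀ s : Finset G, MeasurableSet {ω | fs ω = s} := by
    intro s
    rcases s.eq_empty_or_nonempty with rfl | hs
    · have e : {ω | fs ω = ∅} = (⋃ s ∈ {s : Finset G | s.Nonempty}, {ω | fs ω = s})ᶜ := by
        ext ω
        simp only [Set.mem_ofPred_eq, Set.mem_compl_iff, Set.mem_iUnion, not_exists, exists_prop]
        constructor
        · rintro h s ⟨hs, rfl⟩
          exact hs.ne_empty h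
        · intro h
          by_contra hc
          exact h (fs ω) ⟨Finset.nonempty_iff_ne_empty.mpr hc, rfl⟩
      rw [e]
      exact (MeasurableSet.biUnion (Set.to_countable _) (fun s hs => hms s hs)).compl
    · exact hms s hs
  have hcount : (P.prod Measure.count) B = ∫⁻ ω, Measure.count (F ω) ∂P :=
    Measure.prod_apply hB
  have hae : ∀ᵐ ω ∂P, (F ω).Finite := by
    have h2 := ae_lt_top (μ := P) (measurable_measure_prodMk_left (ν := Measure.count) hB)
      (by rw [← hcount]; exact h1)
    filter_upwards [h2] with ω hω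
    exact Measure.count_apply_lt_top.mp hω
  have hstep : ∀ᵐ ω ∂P, fs (S ω) = ψ ω • fs ω := by
    filter_upwards [hae, hS.toMeasurePreserving.quasiMeasurePreserving.ae hae, hinv]
      with ω h2 h3 h4
    apply Finset.coe_injective
    rw [Finset.coe_smul_finset, hfin _ h3, hfin _ h2]
    ext g
    rw [Set.mem_smul_set_iff_inv_smul_mem, smul_eq_mul]
    have h5 := h4 ((ψ ω)⁻¹ * g)
    have e : (ψ ω)⁻¹ * g * ψ ω = g := by
      rw [mul_comm, ← mul_assoc, mul_inv_cancel, one_mul]
    rw [e] at h5
    exact h5.symm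
  -- the class of `fs` modulo translations is constant
  let cls : Finset G → MulAction.orbitRel.Quotient G (Finset G) := Quotient.mk _
  let _ : MeasurableSpace (MulAction.orbitRel.Quotient G (Finset G)) := ⊤
  have _ : DiscreteMeasurableSpace (MulAction.orbitRel.Quotient G (Finset G)) :=
    ⟨fun _ => trivial⟩
  have _ : Countable (MulAction.orbitRel.Quotient G (Finset G)) := Quotient.countable
  obtain ⟨c, hc⟩ := const_of_ergodic P S hS (fun ω => cls (fs ω)) (CB_aux_meas fs hm cls) (by
    filter_upwards [hstep] with ω h2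
    rw [h2]
    exact Quotient.sound ⟨ψ ω, rfl⟩)
  obtain ⟨F0, hF0⟩ := Quotient.exists_rep c
  have horb : ∀ᵐ ω ∂P, ∃ g : G, g • F0 = fs ω := by
    filter_upwards [hc] with ω h2
    have h3 : cls (fs ω) = cls F0 := by rw [h2]; exact hF0.symm
    have h4 := Quotient.exact h3
    exact h4
  have hne : F0.Nonempty := by
    by_contra hcon
    rw [Finset.not_nonempty_iff_eq_empty] at hcon
    apply h0
    rw [hcount, lintegral_eq_zero_iff (measurable_measure_prodMk_left hB)]
    filter_upwards [horb, hae] with ω h2 h3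
    obtain ⟨g, hg⟩ := h2
    rw [hcon, Finset.smul_finset_empty] at hg
    have h4 := hfin ω h3
    rw [← hg, Finset.coe_empty] at h4
    show Measure.count (F ω) = 0
    rw [← h4, measure_empty]
  let v : Finset G → G := fun F => if h : ∃ g : G, g • F0 = F then h.choose else 1
  have hv : ∀ F, (∃ g : G, g • F0 = F) → v F • F0 = F := by
    intro F h
    simp only [v, dif_pos h]
    exact h.choose_spec
  obtain ⟨x, hx⟩ := hne
  refine ⟨MulAction.stabilizer G F0, ?_, fun ω => v (fs ω), CB_aux_meas fs hm v, ?_⟩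
  · have hinj : Function.Injective (fun g : MulAction.stabilizer G F0 =>
        (⟨g.1 * x, by
          have h2 : g.1 • F0 = F0 := g.2
          have h3 : g.1 • x ∈ g.1 • F0 := Finset.smul_mem_smul_finset hx
          rw [h2] at h3
          exact h3⟩ : F0)) := by
      intro a b hab
      have h2 := congrArg Subtype.val hab
      exact Subtype.ext (mul_right_cancel h2)
    exact Finite.of_injective _ hinj
  · filter_upwards [hstep, horb, hS.toMeasurePreserving.quasiMeasurePreserving.ae horb]
      with ω h2 h3 h4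
    have h5 := hv _ h3
    have h6 := hv _ h4
    rw [MulAction.mem_stabilizer_iff]
    have h7 : v (fs (S ω)) • F0 = (v (fs ω) * ψ ω) • F0 := by
      rw [h6, mul_comm, mul_smul, h5, h2]
    rw [div_eq_inv_mul, mul_smul, h7, inv_smul_smul]

end H567MM.P
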