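import Pool.Agent.H567R2.MN.Stubs

namespace H567MM.P

open Finset

theorem CS_aux_dbl {ι κ : Type*} [DecidableEq κ] (s : Finset ι) (a : ι → ℂ) (q : ι → κ)
    (Z : Finset κ) (h : ∀ t ∈ s, a t ≠ 0 → q t ∈ Z) :
    ∑ t ∈ s, ∑ t' ∈ s, (if q t = q t' then a t * (starRingEnd ℂ) (a t') else 0) =
      ∑ c ∈ Z, (∑ t ∈ s, if q t = c then a t else 0) *
        (starRingEnd ℂ) (∑ t ∈ s, if q t = c then a t else 0) := by
  have h1 : ∀ c ∈ Z, (∑ t ∈ s, if q t = c then a t else 0) *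
        (starRingEnd ℂ) (∑ t ∈ s, if q t = c then a t else 0) =
      ∑ t ∈ s, ∑ t' ∈ s, (if q t = c then a t else 0) *
        (starRingEnd ℂ) (if q t' = c then a t' else 0) := by
    intro c _
    rw [map_sum, Finset.sum_mul_sum]
  refine Eq.trans ?_ (Finset.sum_congr rfl h1).symm
  refine Eq.trans ?_ Finset.sum_comm
  refine Finset.sum_congr rfl fun t ht => ?_
  refine Eq.trans ?_ Finset.sum_comm
  refine Finset.sum_congr rfl fun t' ht' => ?_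
  by_cases ha : a t = 0
  · simp [ha]
  · have hz := h t ht ha
    rw [Finset.sum_eq_single (q t)]
    · by_cases hq : q t = q t'
      · rw [if_pos hq, if_pos rfl, if_pos hq.symm]
      · have hq' : ¬ q t' = q t := fun h => hq h.symm
        simp only [if_neg hq, if_neg hq', if_true, map_zero, mul_zero]
    · intro c _ hc
      rw [if_neg (fun h => hc h.symm)]
      simp
    · intro hn
      exact absurd hz hn

theorem CS_aux_sum {ι κ : Type*} [DecidableEq κ] (s : Finset ι) (a : ι → ℂ) (q : ι → κ)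
    (Z : Finset κ) (h : ∀ t ∈ s, a t ≠ 0 → q t ∈ Z) :
    ∑ t ∈ s, a t = ∑ c ∈ Z, ∑ t ∈ s, (if q t = c then a t else 0) := by
  rw [Finset.sum_comm]
  refine Finset.sum_congr rfl fun t ht => ?_
  by_cases ha : a t = 0
  · simp [ha]
  · rw [Finset.sum_ite_eq, if_pos (h t ht ha)]

theorem cs_classes {ι κ : Type*} [DecidableEq κ] (s : Finset ι) (a : ι → ℂ) (q : ι → κ) (D : ℕ)
    (Z : Finset κ) (hZ : Z.card ≤ D) (h : ∀ t ∈ s, a t ≠ 0 → q t ∈ Z) :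
    ‖∑ t ∈ s, a t‖ ^ 2 ≤
      D * ‖∑ t ∈ s, ∑ t' ∈ s, (if q t = q t' then a t * (starRingEnd ℂ) (a t') else 0)‖ ∧
    0 ≤ (∑ t ∈ s, ∑ t' ∈ s, (if q t = q t' then a t * (starRingEnd ℂ) (a t') else 0)).re ∧
    (∑ t ∈ s, ∑ t' ∈ s, (if q t = q t' then a t * (starRingEnd ℂ) (a t') else 0)).im = 0 := by
  rw [CS_aux_dbl s a q Z h, CS_aux_sum s a q Z h]
  set S : κ → ℂ := fun c => ∑ t ∈ s, (if q t = c then a t else 0) with hS
  have e : ∑ c ∈ Z, S c * (starRingEnd ℂ) (S c) = ((∑ c ∈ Z, ‖S c‖ ^ 2 : ℝ) : ℂ) := by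
    push_cast
    refine Finset.sum_congr rfl fun c _ => ?_
    rw [Complex.mul_conj, Complex.normSq_eq_norm_sq]
    push_cast
    rfl
  have hnn : (0 : ℝ) ≤ ∑ c ∈ Z, ‖S c‖ ^ 2 := Finset.sum_nonneg fun c _ => by positivity
  change ‖∑ c ∈ Z, S c‖ ^ 2 ≤ D * ‖∑ c ∈ Z, S c * (starRingEnd ℂ) (S c)‖ ∧
    0 ≤ (∑ c ∈ Z, S c * (starRingEnd ℂ) (S c)).re ∧
    (∑ c ∈ Z, S c * (starRingEnd ℂ) (S c)).im = 0
  rw [e]
  refine ⟨?_, ?_, ?_⟩
  · rw [Complex.norm_real, Real.norm_of_nonneg hnn]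
    calc ‖∑ c ∈ Z, S c‖ ^ 2 ≤ (∑ c ∈ Z, ‖S c‖) ^ 2 := by
          gcongr
          exact norm_sum_le _ _
      _ ≤ (Z.card : ℝ) * ∑ c ∈ Z, ‖S c‖ ^ 2 := sq_sum_le_card_mul_sum_sq
      _ ≤ D * ∑ c ∈ Z, ‖S c‖ ^ 2 := by
          gcongr
  · rw [Complex.ofReal_re]; exact hnn
  · exact Complex.ofReal_im _

end H567MM.P
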