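import Pool.Agent.H567R2.MN.Stubs
import Pool.Agent.H567R2.MMF.CA
import Pool.Agent.H567R2.MMF.BD

/-! CT: tight cocycles of the square are cohomologous to a constant (helper913) -/

namespace H567MM.P

open MeasureTheory Filter Topology

/-- the skew product -/
private def CT_tau {Ω G : Type*} [CommGroup G] (S : Ω → Ω) (ψ : Ω → G) (z : Ω × G) : Ω × G :=
  (S z.1, z.2 * ψ z.1)

private theorem CT_tau_iterate {Ω G : Type*} [CommGroup G] (S : Ω → Ω) (ψ : Ω → G) (n : ℕ)
    (z : Ω × G) : (CT_tau S ψ)^[n] z = (S^[n] z.1, z.2 * coc S ψ n z.1) := by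
  induction n with
  | zero => simp [coc]
  | succ n ih =>
    rw [Function.iterate_succ_apply', ih, CT_tau, coc]
    simp only [Function.iterate_succ_apply', mul_assoc]

private theorem CT_tau_mp {Ω G : Type*} [MeasurableSpace Ω] (P : Measure Ω)
    [IsProbabilityMeasure P] (S : Ω → Ω) (hS : MeasurePreserving S P P) [CommGroup G]
    [Countable G] [MeasurableSpace G] [DiscreteMeasurableSpace G] (ψ : Ω → G)
    (hψ : Measurable ψ) :
    MeasurePreserving (CT_tau S ψ) (P.prod Measure.count) (P.prod Measure.count) := by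
  have hm : Measurable (Function.uncurry fun (ω : Ω) (g : G) => g * ψ ω) := by
    have h1 : Measurable fun p : G × G => p.1 * p.2 := Measurable.of_discrete
    exact h1.comp (measurable_snd.prodMk (hψ.comp measurable_fst))
  exact hS.skew_product hm (ae_of_all _ fun ω => map_mul_right_eq_self _ _)

private theorem CT_mk_coc {X G : Type*} [CommGroup G] (H : Subgroup G) (S : X → X) (φ : X → G)
    (n : ℕ) (x : X) :
    coc S (fun x => (QuotientGroup.mk (φ x) : G ⧸ H)) n x =
      (QuotientGroup.mk (coc S φ n x) : G ⧸ H) := by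
  induction n with
  | zero => rfl
  | succ n ih =>
    rw [coc, coc, ih]
    rfl

theorem coll_tight {X G : Type*} [MeasurableSpace X] (μ : Measure X)
    [IsProbabilityMeasure μ] (S : X → X) (hS : MeasurePreserving S μ μ) (hmix : MixOrd μ S 1)
    [CommGroup G] [Countable G] [MeasurableSpace G] [DiscreteMeasurableSpace G] (φ : X → G)
    (hφ : Measurable φ) (K : Finset G)
    (hK : ∀ n : ℕ, 1 / 2 ≤ (μ.prod μ).real {z | coc S φ n z.1 / coc S φ n z.2 ∈ K}) :
    ∃ l : G, ∀ ε : ℝ, 0 < ε → ∃ C : Finset G, ∀ n : ℕ,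
      μ.real {x | ¬ ∃ c ∈ C, coc S φ n x = l ^ n * c} < ε := by
  classical
  have hS2 : MeasurePreserving (Prod.map S S) (μ.prod μ) (μ.prod μ) := hS.prod hS
  have mix2 : MixOrd (μ.prod μ) (Prod.map S S) 1 := mix_prod μ μ S S hS hS hmix hmix
  have mix3 : MixOrd (μ.prod (μ.prod μ)) (Prod.map S (Prod.map S S)) 1 :=
    mix_prod μ (μ.prod μ) S (Prod.map S S) hS hS2 hmix mix2
  have erg2 : Ergodic (Prod.map S S) (μ.prod μ) := ergodic_of_mix _ _ hS2 mix2
  have erg3 : Ergodic (Prod.map S (Prod.map S S)) (μ.prod (μ.prod μ)) :=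
    ergodic_of_mix _ _ (hS.prod hS2) mix3
  set P : Measure (X × X) := μ.prod μ with hP
  set ψ : X × X → G := fun z => φ z.1 / φ z.2 with hψdef
  have hdiv : Measurable (fun q : G × G => q.1 / q.2) := measurable_of_countable _
  have hψ : Measurable ψ :=
    hdiv.comp ((hφ.comp measurable_fst).prodMk (hφ.comp measurable_snd))
  have hcoc : ∀ (n : ℕ) (z : X × X), coc (Prod.map S S) ψ n z = coc S φ n z.1 / coc S φ n z.2 :=
    fun n z => CA_aux_coc S φ n z
  -- sum over `K`
  have hsum : ∀ n : ℕ, 1 / 2 ≤ ∑ g ∈ K, P.real {z | coc (Prod.map S S) ψ n z = g} := by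
    intro n
    refine (hK n).trans ?_
    have hset : {z : X × X | coc S φ n z.1 / coc S φ n z.2 ∈ K} =
        ⋃ g ∈ K, {z | coc (Prod.map S S) ψ n z = g} := by
      ext z
      simp only [Set.mem_iUnion, Set.mem_setOf_eq, hcoc, exists_prop, exists_eq_right']
    rw [hset]
    exact measureReal_biUnion_finset_le _ _
  have hKne : K.Nonempty := by
    by_contra hne
    rw [Finset.not_nonempty_iff_eq_empty] at hne
    have := hsum 0
    rw [hne, Finset.sum_empty] at this
    norm_num at this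
  have hKc : (0 : ℝ) < K.card := by exact_mod_cast hKne.card_pos
  set c : ℝ := 1 / (2 * K.card) with hc
  have hc0 : 0 < c := by positivity
  -- pigeonhole
  obtain ⟨g, hgK, hg⟩ : ∃ g ∈ K, ∀ N₀ : ℕ, ∃ N ≥ N₀, c * N ≤
      ∑ n ∈ Finset.range N, P.real {z | coc (Prod.map S S) ψ n z = g} := by
    by_contra hcon
    push Not at hcon
    choose! N₀ hN₀ using hcon
    set N := (K.sup N₀) + 1 with hN
    have hlt : ∑ g ∈ K, ∑ n ∈ Finset.range N, P.real {z | coc (Prod.map S S) ψ n z = g} <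
        ∑ g ∈ K, c * N := by
      refine Finset.sum_lt_sum_of_nonempty hKne ?_
      intro g hg
      exact hN₀ g hg N (by rw [hN]; exact (Finset.le_sup hg).trans (Nat.le_succ _))
    rw [Finset.sum_comm, Finset.sum_const, nsmul_eq_mul] at hlt
    have hge : ∑ n ∈ Finset.range N, (1 / 2 : ℝ) ≤
        ∑ n ∈ Finset.range N, ∑ g ∈ K, P.real {z | coc (Prod.map S S) ψ n z = g} :=
      Finset.sum_le_sum fun n _ => hsum n
    rw [Finset.sum_const, Finset.card_range, nsmul_eq_mul] at hge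
    have heq : (K.card : ℝ) * (c * N) = N * (1 / 2) := by
      rw [hc]
      field_simp
    linarith
  -- invariant set
  obtain ⟨B, hB, hBt, hB0, hinv⟩ := inv_set P (CT_tau (Prod.map S S) ψ)
    (CT_tau_mp P (Prod.map S S) hS2 ψ hψ) g 1 c hc0 (by
      intro N₀
      obtain ⟨N, hN, hN2⟩ := hg N₀
      refine ⟨N, hN, hN2.trans (le_of_eq (Finset.sum_congr rfl ?_))⟩
      intro n _
      congr 1
      ext z
      simp only [Set.mem_setOf_eq, CT_tau_iterate, one_mul])
  have hBne : (P.prod Measure.count) B ≠ 0 := by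
    intro h0
    apply hB0
    have hsub : {ω | (ω, g) ∈ B} ×ˢ ({g} : Set G) ⊆ B := by
      rintro ⟨ω, g'⟩ ⟨h1, h2⟩
      simp only [Set.mem_singleton_iff] at h2
      subst h2
      exact h1
    have h1 := measure_mono_null hsub h0
    rw [Measure.prod_prod, Measure.count_singleton, mul_one] at h1
    exact h1
  obtain ⟨H, hHfin, u, hu, hu2⟩ := exists_cob_mod P (Prod.map S S) erg2 ψ hψ B hB hBne hBt (by
    filter_upwards [hinv] with ω hω q
    exact hω q)
  -- the quotient
  letI : MeasurableSpace (G ⧸ H) := ⊤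
  haveI : DiscreteMeasurableSpace (G ⧸ H) := ⟨fun _ => trivial⟩
  haveI : Countable (G ⧸ H) := (QuotientGroup.mk_surjective (s := H)).countable
  have hmk : Measurable (fun g : G => (QuotientGroup.mk g : G ⧸ H)) := measurable_of_countable _
  obtain ⟨l', p, hp, hp2⟩ := exists_const μ S hS erg3
    (fun x => (QuotientGroup.mk (φ x) : G ⧸ H)) (hmk.comp hφ)
    (fun z => (QuotientGroup.mk (u z) : G ⧸ H)) (hmk.comp hu) (by
      filter_upwards [hu2] with z hz
      have h1 : (S z.1, S z.2) = Prod.map S S z := rfl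
      rw [h1]
      have h2 : (QuotientGroup.mk (u (Prod.map S S z)) : G ⧸ H) =
          QuotientGroup.mk (u z * ψ z) := by
        rw [eq_comm, QuotientGroup.eq]
        rw [div_eq_mul_inv, mul_comm] at hz
        exact hz
      rw [h2]
      rfl)
  have hcc := coc_const μ S hS (fun x => (QuotientGroup.mk (φ x) : G ⧸ H)) p l' 1 (by
    filter_upwards [hp2] with x hx
    rw [pow_one]
    exact hx)
  obtain ⟨l, rfl⟩ := QuotientGroup.mk_surjective l'
  refine ⟨l, fun ε hε => ?_⟩
  obtain ⟨Φ, hΦ⟩ := BD_aux_finset μ p (fun q => hp (measurableSet_singleton q)) (ε / 2)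
    (by linarith)
  -- the finite set
  have hfin : {g : G | ∃ a ∈ Φ, ∃ b ∈ Φ, (QuotientGroup.mk g : G ⧸ H) = a / b}.Finite := by
    have h1 : {g : G | ∃ a ∈ Φ, ∃ b ∈ Φ, (QuotientGroup.mk g : G ⧸ H) = a / b} =
        ⋃ a ∈ Φ, ⋃ b ∈ Φ, (fun g : G => (QuotientGroup.mk g : G ⧸ H)) ⁻¹' {a / b} := by
      ext g
      simp only [Set.mem_iUnion, Set.mem_setOf_eq, Set.mem_preimage, Set.mem_singleton_iff,
        exists_prop]
    rw [h1]
    refine Set.Finite.biUnion Φ.finite_toSet fun a _ => ?_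
    refine Set.Finite.biUnion Φ.finite_toSet fun b _ => ?_
    obtain ⟨g₀, hg₀⟩ := QuotientGroup.mk_surjective (a / b)
    have h2 : (fun g : G => (QuotientGroup.mk g : G ⧸ H)) ⁻¹' {a / b} ⊆
        (fun h : G => g₀ * h) '' (H : Set G) := by
      intro g hg
      simp only [Set.mem_preimage, Set.mem_singleton_iff] at hg
      refine ⟨g₀⁻¹ * g, ?_, by simp⟩
      rw [← hg₀, eq_comm, QuotientGroup.eq] at hg
      exact hg
    refine Set.Finite.subset ?_ h2
    exact (Set.toFinite (H : Set G)).image _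
  refine ⟨hfin.toFinset, fun n => ?_⟩
  have hae : ∀ᵐ x ∂μ, x ∈ {x | ¬ ∃ c ∈ hfin.toFinset, coc S φ n x = l ^ n * c} →
      x ∈ {x | p x ∉ Φ} ∪ S^[n] ⁻¹' {x | p x ∉ Φ} := by
    filter_upwards [hcc] with x hx hxn
    by_contra hcon
    simp only [Set.mem_union, Set.mem_setOf_eq, Set.mem_preimage, not_or, not_not] at hcon
    apply hxn
    refine ⟨coc S φ n x / l ^ n, ?_, by rw [mul_div_cancel]⟩
    rw [Set.Finite.mem_toFinset]
    refine ⟨p (S^[n] x), hcon.2, p x, hcon.1, ?_⟩
    have h3 := hx n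
    rw [pow_one, CT_mk_coc] at h3
    rw [QuotientGroup.mk_div, h3, QuotientGroup.mk_pow, mul_div_assoc, mul_div_cancel_left]
  have hle : μ.real {x | ¬ ∃ c ∈ hfin.toFinset, coc S φ n x = l ^ n * c} ≤
      μ.real ({x | p x ∉ Φ} ∪ S^[n] ⁻¹' {x | p x ∉ Φ}) := by
    apply ENNReal.toReal_mono (measure_ne_top _ _)
    exact measure_mono_ae hae
  have hle2 : μ.real ({x | p x ∉ Φ} ∪ S^[n] ⁻¹' {x | p x ∉ Φ}) ≤
      μ.real {x | p x ∉ Φ} + μ.real (S^[n] ⁻¹' {x | p x ∉ Φ}) := measureReal_union_le _ _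
  have hmeas : MeasurableSet {x | p x ∉ Φ} := by
    have : {x | p x ∉ Φ} = p ⁻¹' ((Φ : Set (G ⧸ H))ᶜ) := by
      ext x
      simp
    rw [this]
    exact hp (MeasurableSet.of_discrete)
  have heq : μ.real (S^[n] ⁻¹' {x | p x ∉ Φ}) = μ.real {x | p x ∉ Φ} := by
    rw [measureReal_def, measureReal_def, (hS.iterate n).measure_preimage hmeas.nullMeasurableSet]
  linarith

end H567MM.P
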