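import Pool.Agent.H567R2.MN.Stubs

/-! CZ: weak mixing implies that the correlations tend to zero in the mean. -/

namespace H567MM.P

open MeasureTheory Filter Topology

/-- the tensor square of `g` -/
private noncomputable def CZ_auxG {Z : Type*} (g : Z → ℂ) (z : Z × Z) : ℂ :=
  g z.1 * (starRingEnd ℂ) (g z.2)

private theorem CZ_aux_it {Z : Type*} (T : Z → Z) (n : ℕ) (z : Z × Z) :
    (Prod.map T T)^[n] z = (T^[n] z.1, T^[n] z.2) := by
  rw [Prod.map_iterate]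
  rfl

private theorem CZ_aux_corr {Z : Type*} [MeasurableSpace Z] (ρ : Measure Z)
    [IsProbabilityMeasure ρ] (T : Z → Z) (g : Z → ℂ) (n : ℕ) :
    ∫ z, CZ_auxG g ((Prod.map T T)^[n] z) * (starRingEnd ℂ) (CZ_auxG g z) ∂(ρ.prod ρ) =
      ((‖∫ z, g (T^[n] z) * (starRingEnd ℂ) (g z) ∂ρ‖ ^ 2 : ℝ) : ℂ) := by
  have h1 : ∀ z : Z × Z, CZ_auxG g ((Prod.map T T)^[n] z) * (starRingEnd ℂ) (CZ_auxG g z) =
      (g (T^[n] z.1) * (starRingEnd ℂ) (g z.1)) *
        ((starRingEnd ℂ) (g (T^[n] z.2) * (starRingEnd ℂ) (g z.2))) := by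
    intro z
    rw [CZ_aux_it]
    simp only [CZ_auxG, map_mul, Complex.conj_conj]
    ring
  rw [integral_congr_ae (ae_of_all _ h1),
    integral_prod_mul (fun z => g (T^[n] z) * (starRingEnd ℂ) (g z))
      (fun z => (starRingEnd ℂ) (g (T^[n] z) * (starRingEnd ℂ) (g z))), integral_conj,
    Complex.mul_conj, Complex.normSq_eq_norm_sq]

private theorem CZ_aux_avg {Z : Type*} [MeasurableSpace Z] (ρ : Measure Z)
    [IsProbabilityMeasure ρ] (T : Z → Z) (hwm : Ergodic (Prod.map T T) (ρ.prod ρ))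
    (g : Z → ℂ) (hg : Measurable g) (hb : ∀ z, ‖g z‖ ≤ 1) (h0 : ∫ z, g z ∂ρ = 0) :
    Tendsto (fun N : ℕ => (N : ℝ)⁻¹ * ∑ n ∈ Finset.range N,
      ‖∫ z, g (T^[n] z) * (starRingEnd ℂ) (g z) ∂ρ‖ ^ 2) atTop (𝓝 0) := by
  set m : Measure (Z × Z) := ρ.prod ρ with hmdef
  set τ : Z × Z → Z × Z := Prod.map T T with hτdef
  have hτ : MeasurePreserving τ m m := hwm.toMeasurePreserving
  have hGm : Measurable (CZ_auxG g) := by
    have h1 : Measurable fun z : Z × Z => g z.1 := hg.comp measurable_fst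
    have h2 : Measurable fun z : Z × Z => (starRingEnd ℂ) (g z.2) :=
      Complex.continuous_conj.measurable.comp (hg.comp measurable_snd)
    exact h1.mul h2
  have hGb : ∀ z, ‖CZ_auxG g z‖ ≤ 1 := by
    intro z
    rw [CZ_auxG, norm_mul, RCLike.norm_conj]
    exact mul_le_one₀ (hb _) (norm_nonneg _) (hb _)
  have hGL : MemLp (CZ_auxG g) 2 m :=
    MemLp.of_bound hGm.aestronglyMeasurable 1 (ae_of_all _ hGb)
  set e : Lp ℂ 2 m := hGL.toLp (CZ_auxG g) with he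
  have hee : (e : Z × Z → ℂ) =ᵐ[m] CZ_auxG g := hGL.coeFn_toLp
  set U : Lp ℂ 2 m →L[ℂ] Lp ℂ 2 m :=
    (Lp.compMeasurePreservingₗᵢ ℂ τ hτ).toContinuousLinearMap with hU
  have hUn : ‖U‖ ≤ 1 := LinearIsometry.norm_toContinuousLinearMap_le _
  have hUc : ∀ f, U f = Lp.compMeasurePreserving τ hτ f := fun f => rfl
  have hUit : ∀ n : ℕ, (⇑U)^[n] e = Lp.compMeasurePreserving τ^[n] (hτ.iterate n) e := by
    intro n
    rw [← Lp.compMeasurePreserving_iterate hτ n]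
    rfl
  have hin : ∀ n : ℕ, inner ℂ e ((⇑U)^[n] e) =
      ((‖∫ z, g (T^[n] z) * (starRingEnd ℂ) (g z) ∂ρ‖ ^ 2 : ℝ) : ℂ) := by
    intro n
    rw [hUit n, L2.inner_def, ← CZ_aux_corr ρ T g n]
    refine integral_congr_ae ?_
    have h1 := Lp.coeFn_compMeasurePreserving e (hτ.iterate n)
    have h2 : ∀ᵐ z ∂m, e (τ^[n] z) = CZ_auxG g (τ^[n] z) :=
      (hτ.iterate n).quasiMeasurePreserving.ae hee
    filter_upwards [h1, h2, hee] with z hz1 hz2 hz3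
    rw [hz1, Function.comp_apply, hz2, hz3, RCLike.inner_apply]
  have hlim := U.tendsto_birkhoffAverage_orthogonalProjection hUn e
  set hp := (U.eqLocus (1 : Lp ℂ 2 m →L[ℂ] Lp ℂ 2 m)).orthogonalProjectionOnto e with hpdef
  have hfix : U (hp : Lp ℂ 2 m) = hp := by
    have := hp.2
    rw [LinearMap.mem_eqLocus] at this
    exact this
  have hlim2 : Tendsto (fun N : ℕ => inner ℂ e (birkhoffAverage ℂ U _root_.id N e)) atTop
      (𝓝 (inner ℂ e (hp : Lp ℂ 2 m))) := tendsto_const_nhds.inner hlim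
  have hav : ∀ N : ℕ, inner ℂ e (birkhoffAverage ℂ U _root_.id N e) =
      (((N : ℝ)⁻¹ * ∑ n ∈ Finset.range N,
        ‖∫ z, g (T^[n] z) * (starRingEnd ℂ) (g z) ∂ρ‖ ^ 2 : ℝ) : ℂ) := by
    intro N
    rw [birkhoffAverage, birkhoffSum, inner_smul_right, inner_sum]
    push_cast
    congr 1
    exact Finset.sum_congr rfl fun n _ => by
      have := hin n
      push_cast at this
      exact this
  set f : Z × Z → ℂ := ⇑(hp : Lp ℂ 2 m) with hf
  have hfinv : f ∘ τ =ᵐ[m] f := by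
    have h1 := Lp.coeFn_compMeasurePreserving (hp : Lp ℂ 2 m) hτ
    rw [← hUc, hfix] at h1
    exact h1.symm
  obtain ⟨c, hc⟩ := hwm.ae_eq_const_of_ae_eq_comp_ae (Lp.aestronglyMeasurable _) hfinv
  have hG0 : ∫ z, CZ_auxG g z ∂m = 0 := by
    have := integral_prod_mul (μ := ρ) (ν := ρ) g (fun z => (starRingEnd ℂ) (g z))
    rw [h0, zero_mul] at this
    exact this
  have hz : inner ℂ e (hp : Lp ℂ 2 m) = 0 := by
    rw [L2.inner_def]
    have h1 : ∫ z, inner ℂ (e z) ((hp : Lp ℂ 2 m) z) ∂m =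
        ∫ z, c * (starRingEnd ℂ) (CZ_auxG g z) ∂m := by
      refine integral_congr_ae ?_
      filter_upwards [hee, hc] with z hz1 hz2
      have hz3 : (hp : Lp ℂ 2 m) z = c := hz2
      rw [hz1, hz3, RCLike.inner_apply]
    rw [h1, integral_const_mul, integral_conj, hG0]
    simp
  rw [hz] at hlim2
  have h3 : Tendsto (fun N : ℕ => (((N : ℝ)⁻¹ * ∑ n ∈ Finset.range N,
        ‖∫ z, g (T^[n] z) * (starRingEnd ℂ) (g z) ∂ρ‖ ^ 2 : ℝ) : ℂ)) atTop (𝓝 ((0 : ℝ) : ℂ)) := by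
    rw [Complex.ofReal_zero]
    refine hlim2.congr hav
  have h4 := (Complex.continuous_re.tendsto _).comp h3
  simp only [Function.comp_def, Complex.ofReal_re] at h4
  exact h4

theorem corr_zero_of_wm {Z : Type*} [MeasurableSpace Z] (ρ : Measure Z) [IsProbabilityMeasure ρ]
    (T : Z → Z) (hT : MeasurePreserving T ρ ρ) (hwm : Ergodic (Prod.map T T) (ρ.prod ρ))
    (g : Z → ℂ) (hg : Measurable g) (hb : ∀ z, ‖g z‖ ≤ 1) (h0 : ∫ z, g z ∂ρ = 0) :
    CorrZero ρ T g := by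
  intro ε hε
  have h1 := CZ_aux_avg ρ T hwm g hg hb h0
  have h2 : ∀ᶠ N : ℕ in atTop, (N : ℝ)⁻¹ * ∑ n ∈ Finset.range N,
      ‖∫ z, g (T^[n] z) * (starRingEnd ℂ) (g z) ∂ρ‖ ^ 2 < ε ^ 2 :=
    h1.eventually (gt_mem_nhds (by positivity))
  obtain ⟨N₀, hN₀⟩ := eventually_atTop.1 h2
  refine ⟨N₀ + 1, fun N hN => ?_⟩
  have hNpos : (0 : ℝ) < N := by exact_mod_cast (by omega : 0 < N)
  have h3 := hN₀ N (by omega)
  rw [inv_mul_eq_div, div_lt_iff₀ hNpos] at h3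
  have h4 := sq_sum_le_card_mul_sum_sq (s := Finset.range N)
    (f := fun n => ‖∫ z, g (T^[n] z) * (starRingEnd ℂ) (g z) ∂ρ‖)
  rw [Finset.card_range] at h4
  refine abs_le_of_sq_le_sq' (a := ∑ n ∈ Finset.range N,
    ‖∫ z, g (T^[n] z) * (starRingEnd ℂ) (g z) ∂ρ‖) ?_ (by positivity) |>.2
  calc _ ≤ (N : ℝ) * ∑ n ∈ Finset.range N,
        ‖∫ z, g (T^[n] z) * (starRingEnd ℂ) (g z) ∂ρ‖ ^ 2 := h4
    _ ≤ (N : ℝ) * (ε ^ 2 * N) := mul_le_mul_of_nonneg_left h3.le hNpos.le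
    _ = (ε * N) ^ 2 := by ring

end H567MM.P
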