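import Pool.Agent.H567R2.MN.Stubs

/-! DS: double sums of products of correlations -/

namespace H567MM.P

open MeasureTheory

theorem DS_aux1 (c : ℕ → ℝ) (hc : ∀ n, 0 ≤ c n) (N t : ℕ) (ht : t < N) :
    ∑ t' ∈ Finset.range N, c (if t' ≤ t then t - t' else t' - t) ≤
      2 * ∑ r ∈ Finset.range N, c r := by
  rw [← Finset.sum_filter_add_sum_filter_not (Finset.range N) (fun t' => t' ≤ t), two_mul]
  refine add_le_add ?_ ?_
  · have h1 : ∑ t' ∈ (Finset.range N).filter (fun t' => t' ≤ t),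
        c (if t' ≤ t then t - t' else t' - t) =
        ∑ t' ∈ (Finset.range N).filter (fun t' => t' ≤ t), c (t - t') := by
      refine Finset.sum_congr rfl fun t' ht' => ?_
      rw [Finset.mem_filter] at ht'
      rw [if_pos ht'.2]
    rw [h1, ← Finset.sum_image (f := c) (g := fun t' => t - t')]
    · refine Finset.sum_le_sum_of_subset_of_nonneg ?_ fun i _ _ => hc i
      intro r hr
      rw [Finset.mem_image] at hr
      obtain ⟨t', ht', rfl⟩ := hr
      rw [Finset.mem_range]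
      omega
    · intro a ha b hb hab
      simp only [Finset.coe_filter, Finset.mem_range, Set.mem_ofPred_eq] at ha hb
      simp only at hab
      omega
  · have h1 : ∑ t' ∈ (Finset.range N).filter (fun t' => ¬ t' ≤ t),
        c (if t' ≤ t then t - t' else t' - t) =
        ∑ t' ∈ (Finset.range N).filter (fun t' => ¬ t' ≤ t), c (t' - t) := by
      refine Finset.sum_congr rfl fun t' ht' => ?_
      rw [Finset.mem_filter] at ht'
      rw [if_neg ht'.2]
    rw [h1, ← Finset.sum_image (f := c) (g := fun t' => t' - t)]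
    · refine Finset.sum_le_sum_of_subset_of_nonneg ?_ fun i _ _ => hc i
      intro r hr
      rw [Finset.mem_image] at hr
      obtain ⟨t', ht', rfl⟩ := hr
      rw [Finset.mem_filter, Finset.mem_range] at ht'
      rw [Finset.mem_range]
      omega
    · intro a ha b hb hab
      simp only [Finset.coe_filter, Finset.mem_range, Set.mem_ofPred_eq] at ha hb
      simp only at hab
      omega

theorem DS_aux2 {Z : Type*} [MeasurableSpace Z] (ρ : Measure Z) [IsProbabilityMeasure ρ]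
    (T : Z → Z) (hT : MeasurePreserving T ρ ρ) (g : Z → ℂ) (hg : Measurable g) (t t' : ℕ)
    (h : t' ≤ t) : ∫ z, g (T^[t] z) * (starRingEnd ℂ) (g (T^[t'] z)) ∂ρ =
      ∫ z, g (T^[t - t'] z) * (starRingEnd ℂ) (g z) ∂ρ := by
  have h1 := hT.iterate t'
  have hF : Measurable (fun z => g (T^[t - t'] z) * (starRingEnd ℂ) (g z)) :=
    (hg.comp (hT.iterate (t - t')).measurable).mul
      (Complex.continuous_conj.measurable.comp hg)
  have h2 := integral_map (μ := ρ) (φ := T^[t']) h1.measurable.aemeasurable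
    (f := fun z => g (T^[t - t'] z) * (starRingEnd ℂ) (g z)) hF.aestronglyMeasurable
  rw [h1.map_eq] at h2
  rw [h2]
  congr 1
  ext z
  rw [← Function.iterate_add_apply, Nat.sub_add_cancel h]

theorem DS_aux3 {Z : Type*} [MeasurableSpace Z] (ρ : Measure Z) [IsProbabilityMeasure ρ]
    (T : Z → Z) (hT : MeasurePreserving T ρ ρ) (g : Z → ℂ) (hg : Measurable g) (t t' : ℕ) :
    ‖∫ z, g (T^[t] z) * (starRingEnd ℂ) (g (T^[t'] z)) ∂ρ‖ =
      ‖∫ z, g (T^[if t' ≤ t then t - t' else t' - t] z) * (starRingEnd ℂ) (g z) ∂ρ‖ := by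
  by_cases h : t' ≤ t
  · rw [if_pos h, DS_aux2 ρ T hT g hg t t' h]
  · rw [if_neg h, ← DS_aux2 ρ T hT g hg t' t (by omega)]
    have h1 : ∫ z, g (T^[t] z) * (starRingEnd ℂ) (g (T^[t'] z)) ∂ρ =
        (starRingEnd ℂ) (∫ z, g (T^[t'] z) * (starRingEnd ℂ) (g (T^[t] z)) ∂ρ) := by
      rw [← integral_conj]
      congr 1
      ext z
      rw [map_mul, Complex.conj_conj]
      ring
    rw [h1, RCLike.norm_conj]

theorem DS_aux4 {Z : Type*} [MeasurableSpace Z] (ρ : Measure Z) [IsProbabilityMeasure ρ]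
    (T : Z → Z) (g : Z → ℂ) (hb : ∀ z, ‖g z‖ ≤ 1) (t t' : ℕ) :
    ‖∫ z, g (T^[t] z) * (starRingEnd ℂ) (g (T^[t'] z)) ∂ρ‖ ≤ 1 := by
  have h1 : ∀ᵐ z ∂ρ, ‖g (T^[t] z) * (starRingEnd ℂ) (g (T^[t'] z))‖ ≤ 1 := by
    filter_upwards with z
    rw [norm_mul, RCLike.norm_conj]
    exact mul_le_one₀ (hb _) (norm_nonneg _) (hb _)
  have h2 := norm_integral_le_of_norm_le_const h1
  rw [probReal_univ, mul_one] at h2
  exact h2

/-- DS -/
theorem dsum_small {Z : Type*} [MeasurableSpace Z] (ρ : Measure Z) [IsProbabilityMeasure ρ]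
    (T : Z → Z) (hT : MeasurePreserving T ρ ρ) {s : ℕ} (g : Fin s → Z → ℂ)
    (hg : ∀ j, Measurable (g j)) (hb : ∀ j z, ‖g j z‖ ≤ 1) (j₀ : Fin s)
    (hc : CorrZero ρ T (g j₀)) (ε : ℝ) (hε : 0 < ε) :
    ∃ N : ℕ, 0 < N ∧ ‖∑ t ∈ Finset.range N, ∑ t' ∈ Finset.range N,
      ∏ j, ∫ z, g j (T^[t] z) * (starRingEnd ℂ) (g j (T^[t'] z)) ∂ρ‖ ≤ ε * N ^ 2 := by
  obtain ⟨N₀, hN₀⟩ := hc (ε / 2) (by positivity)
  refine ⟨max N₀ 1, by positivity, ?_⟩
  set N := max N₀ 1 with hN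
  have hNN := hN₀ N (le_max_left _ _)
  set c : ℕ → ℝ := fun n => ‖∫ z, g j₀ (T^[n] z) * (starRingEnd ℂ) (g j₀ z) ∂ρ‖ with hcdef
  have hc0 : ∀ n, 0 ≤ c n := fun n => norm_nonneg _
  have h1 : ∀ t t' : ℕ, ‖∏ j, ∫ z, g j (T^[t] z) * (starRingEnd ℂ) (g j (T^[t'] z)) ∂ρ‖ ≤
      c (if t' ≤ t then t - t' else t' - t) := by
    intro t t'
    rw [norm_prod, ← Finset.mul_prod_erase Finset.univ _ (Finset.mem_univ j₀)]
    have h2 : ∏ j ∈ Finset.univ.erase j₀,
        ‖∫ z, g j (T^[t] z) * (starRingEnd ℂ) (g j (T^[t'] z)) ∂ρ‖ ≤ 1 :=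
      Finset.prod_le_one (fun _ _ => norm_nonneg _) fun j _ => DS_aux4 ρ T (g j) (hb j) t t'
    have h3 := DS_aux3 ρ T hT (g j₀) (hg j₀) t t'
    rw [h3]
    exact mul_le_of_le_one_right (norm_nonneg _) h2
  calc ‖∑ t ∈ Finset.range N, ∑ t' ∈ Finset.range N,
      ∏ j, ∫ z, g j (T^[t] z) * (starRingEnd ℂ) (g j (T^[t'] z)) ∂ρ‖
      ≤ ∑ t ∈ Finset.range N, ∑ t' ∈ Finset.range N, c (if t' ≤ t then t - t' else t' - t) := by
        refine (norm_sum_le _ _).trans (Finset.sum_le_sum fun t _ => ?_)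
        exact (norm_sum_le _ _).trans (Finset.sum_le_sum fun t' _ => h1 t t')
    _ ≤ ∑ t ∈ Finset.range N, 2 * ∑ r ∈ Finset.range N, c r :=
        Finset.sum_le_sum fun t ht => DS_aux1 c hc0 N t (Finset.mem_range.mp ht)
    _ = N * (2 * ∑ r ∈ Finset.range N, c r) := by
        rw [Finset.sum_const, Finset.card_range, nsmul_eq_mul]
    _ ≤ N * (2 * (ε / 2 * N)) := by
        refine mul_le_mul_of_nonneg_left ?_ (Nat.cast_nonneg _)
        linarith
    _ = ε * N ^ 2 := by ring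

end H567MM.P
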