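import Pool.Agent.H567R2.MMF.Base

/-!
Multiple mixing of affine skew products: definitions.
-/

namespace H567MM

open MeasureTheory

noncomputable section

/-- the affine skew product `(x, y) ↦ (S x, α(x) + φ(x) y)` (the dual group is written
multiplicatively) -/
def askew {X R M : Type*} [CommRing R] [AddCommGroup M] [Module R M] (S : X → X) (φ : X → Rˣ)
    (α : X → Dual M) (z : X × Dual M) : X × Dual M := (S z.1, α z.1 * act (φ z.1) z.2)

/-- the translation part of the iterates of `askew` -/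
def ac {X R M : Type*} [CommRing R] [AddCommGroup M] [Module R M] (S : X → X) (φ : X → Rˣ)
    (α : X → Dual M) : ℕ → X → Dual M
  | 0, _ => 1
  | n + 1, x => α (S^[n] x) * act (φ (S^[n] x)) (ac S φ α n x)

/-- transient elements of the module -/
def Trans {X R M : Type*} [MeasurableSpace X] [CommRing R] [AddCommGroup M] [Module R M]
    (μ : Measure X) (S : X → X) (φ : X → Rˣ) (m : M) : Prop :=
  ∀ m' : M, ∀ c : ℝ, 0 < c → ∃ N₀ : ℕ, ∀ N : ℕ, N₀ ≤ N →
    ∑ n ∈ Finset.range N, μ.real {x | cv S φ n x • m = m'} < c * N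

/-- the relation with the coefficients `m` is rare for large gaps -/
def Small {X R M : Type*} [MeasurableSpace X] [CommRing R] [AddCommGroup M] [Module R M]
    (μ : Measure X) (S : X → X) (φ : X → Rˣ) {s : ℕ} (m : Fin s → M) : Prop :=
  ∀ ε : ℝ, 0 < ε → ∃ G : ℕ, ∀ n : Fin s → ℕ, Gaps G n →
    μ.real {x | ∑ i, cv S φ (n i) x • m i = 0} < ε

/-- recurrent elements of the module: they lie, with probability close to one, in a random
finite set which is invariant -/
def Rec {X R M : Type*} [MeasurableSpace X] [CommRing R] [AddCommGroup M] [Module R M]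
    (μ : Measure X) (S : X → X) (φ : X → Rˣ) (m : M) : Prop :=
  ∀ ε : ℝ, 0 < ε → ∃ (B : M → Set X) (f : ℕ), (∀ m', MeasurableSet (B m')) ∧
    (∀ᵐ x ∂μ, ∀ m', (x ∈ B ((φ x : R) • m') ↔ S x ∈ B m')) ∧
    (∀ᵐ x ∂μ, {m' | x ∈ B m'}.encard ≤ f) ∧ μ.real (B m)ᶜ < ε

/-- mixing of multiplicity `k` of the affine skew product on the tensor functions with
characters in the submodule `L` -/
def PL {X R M : Type*} [MeasurableSpace X] [CommRing R] [AddCommGroup M] [Module R M]
    (μ : Measure X) (ν : Measure (Dual M)) (S : X → X) (φ : X → Rˣ) (α : X → Dual M) (k : ℕ)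
    (L : Submodule R M) : Prop :=
  ∀ (A : Fin (k + 1) → Set X) (m : Fin (k + 1) → M), (∀ j, MeasurableSet (A j)) →
    (∀ j, m j ∈ L) → ∀ ε : ℝ, 0 < ε → ∃ G : ℕ, ∀ n : Fin (k + 1) → ℕ, n 0 = 0 →
    (∀ j : Fin k, n j.castSucc + G ≤ n j.succ) →
    ‖∫ z, ∏ j, ten (A j) (m j) ((askew S φ α)^[n j] z) ∂(μ.prod ν) -
      ∏ j, ∫ z, ten (A j) (m j) z ∂(μ.prod ν)‖ < ε

/-- auxiliary functions -/
def th {X R M : Type*} [CommRing R] [AddCommGroup M] [Module R M] (S : X → X) (φ : X → Rˣ)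
    (α : X → Dual M) (L : Submodule R M) (A : Set X) (m : M) (t t' : ℕ) (z : X × Dual M) : ℂ :=
  {x | cv S φ t x • m - cv S φ t' x • m ∈ L}.indicator (fun _ => (1 : ℂ)) z.1 *
    (ten A m ((askew S φ α)^[t] z) * (starRingEnd ℂ) (ten A m ((askew S φ α)^[t'] z)))

/-- the correlations of `g` tend to zero in the mean -/
def CorrZero {Z : Type*} [MeasurableSpace Z] (ρ : Measure Z) (T : Z → Z) (g : Z → ℂ) : Prop :=
  ∀ ε : ℝ, 0 < ε → ∃ N₀ : ℕ, ∀ N : ℕ, N₀ ≤ N →
    ∑ n ∈ Finset.range N, ‖∫ z, g (T^[n] z) * (starRingEnd ℂ) (g z) ∂ρ‖ ≤ ε * N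

end

end H567MM
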