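import Pool.Agent.H567R2.MN.Stubs

/-! Task FM (helper835): the top. -/

namespace H567MM.P

open MeasureTheory Filter Topology

theorem FM_aux_gaps {k G : ℕ} (n : Fin (k + 1) → ℕ)
    (h : ∀ j : Fin k, n j.castSucc + G ≤ n j.succ) : Gaps G n := by
  have hmono : Monotone n := by
    rw [Fin.monotone_iff_le_succ]
    intro i
    have := h i
    omega
  intro i j hij
  have hj : j ≠ 0 := by
    rintro rfl
    exact absurd hij (Fin.not_lt_zero i)
  obtain ⟨l, rfl⟩ := Fin.exists_succ_eq.2 hj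
  have h1 : i ≤ l.castSucc := Fin.le_castSucc_iff.2 hij
  have h2 := hmono h1
  have h3 := h l
  omega

theorem FM_aux_meas {X R M : Type*} [MeasurableSpace X]
    [CommRing R] [AddCommGroup M] [Module R M] [Countable M] (φ : X → Rˣ)
    (hφ : ∀ m m' : M, MeasurableSet {x | (φ x : R) • m = m'}) (L : Submodule R M)
    (q q' : M ⧸ L) : MeasurableSet {x | (φ x : R) • q = q'} := by
  obtain ⟨v, rfl⟩ := L.mkQ_surjective q
  have : {x | (φ x : R) • L.mkQ v = q'} = ⋃ w : {w : M // L.mkQ w = q'},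
      {x | (φ x : R) • v = w.1} := by
    ext x
    simp only [Set.mem_setOf_eq, Set.mem_iUnion]
    constructor
    · intro h
      rw [← map_smul] at h
      exact ⟨⟨_, h⟩, rfl⟩
    · rintro ⟨w, hw⟩
      rw [← map_smul, hw]
      exact w.2
  rw [this]
  exact MeasurableSet.iUnion fun w => hφ v w.1

theorem PL_top {X R M : Type*} [MeasurableSpace X] (μ : Measure X)
    [IsProbabilityMeasure μ] (S : X → X) (hS : MeasurePreserving S μ μ) (hmix : MixOrd μ S 1)
    [CommRing R] [AddCommGroup M] [Module R M] [Countable M] (φ : X → Rˣ)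
    (hφ : ∀ m m' : M, MeasurableSet {x | (φ x : R) • m = m'}) (α : X → Dual M)
    (hα : Measurable α) (ν : Measure (Dual M)) (hν : IsHaarProb ν) (k : ℕ) (L : Submodule R M)
    (hL : PL μ ν S φ α k L) (htr : ∀ q : M ⧸ L, q ≠ 0 → Trans μ S φ q) :
    PL μ ν S φ α k (⊤ : Submodule R M) := by
  intro A m hA _ ε hε
  by_cases hm : ∀ j, m j ∈ L
  · exact hL A m hA hm ε hε
  push Not at hm
  obtain ⟨j₀, hj₀⟩ := hm
  have : Countable (M ⧸ L) := L.mkQ_surjective.countable
  have hm' : (fun j => L.mkQ (m j)) ≠ 0 := by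
    intro h
    have := congrFun h j₀
    simp only [Submodule.mkQ_apply, Pi.zero_apply, Submodule.Quotient.mk_eq_zero] at this
    exact hj₀ this
  obtain ⟨G, hG⟩ := small_of_trans μ S hS hmix φ (FM_aux_meas φ hφ L) htr
    (fun j => L.mkQ (m j)) hm' ε hε
  refine ⟨G, fun n _ hn => ?_⟩
  have h1 := hG n (FM_aux_gaps n hn)
  have hne : m j₀ ≠ 0 := fun h => hj₀ (h ▸ L.zero_mem)
  have h2 : ∏ j, ∫ z, ten (A j) (m j) z ∂(μ.prod ν) = 0 :=
    Finset.prod_eq_zero (Finset.mem_univ j₀) (ten_integral_ne μ ν hν (A j₀) (hA j₀) (m j₀) hne)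
  rw [h2, sub_zero]
  refine lt_of_le_of_lt (ten_int_le μ S hS φ hφ α hα ν hν A hA m n) (lt_of_le_of_lt ?_ h1)
  refine measureReal_mono ?_ (measure_ne_top _ _)
  intro x hx
  simp only [Set.mem_setOf_eq] at hx ⊢
  have h3 := congrArg L.mkQ hx
  rw [map_sum, map_zero] at h3
  rw [← h3]
  apply Finset.sum_congr rfl
  intro i _
  rw [map_smul]

end H567MM.P
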