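import Pool.Agent.H567R2.MN.Stubs

/-! LT: the linear theorem. -/

namespace H567MM.P

open MeasureTheory Filter Topology

/-- stabilizer of an element of the module in the group of units -/
def LT_aux_stab {R M : Type*} [CommRing R] [AddCommGroup M] [Module R M] (m : M) :
    Subgroup Rˣ where
  carrier := {u | (u : R) • m = m}
  mul_mem' := by
    intro u v hu hv
    show ((u * v : Rˣ) : R) • m = m
    rw [Units.val_mul, mul_smul]
    have hu' : (u : R) • m = m := hu
    have hv' : (v : R) • m = m := hv
    rw [hv', hu']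
  one_mem' := by
    show ((1 : Rˣ) : R) • m = m
    simp
  inv_mem' := by
    intro u hu
    have hu' : (u : R) • m = m := hu
    show ((u⁻¹ : Rˣ) : R) • m = m
    have h : ((u⁻¹ : Rˣ) : R) • ((u : R) • m) = m := by
      rw [← mul_smul, Units.inv_mul, one_smul]
    rw [hu'] at h
    exact h

theorem LT_aux_mem {R M : Type*} [CommRing R] [AddCommGroup M] [Module R M] (m : M)
    (u v : Rˣ) : u / v ∈ LT_aux_stab (R := R) m ↔ (u : R) • m = (v : R) • m := by
  show ((u / v : Rˣ) : R) • m = m ↔ _
  constructor
  · intro h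
    have h1 : (v : R) • (((u / v : Rˣ) : R) • m) = (u : R) • m := by
      rw [← mul_smul, ← Units.val_mul, mul_div_cancel]
    rw [h] at h1
    exact h1.symm
  · intro h
    have h1 : ((u / v : Rˣ) : R) • m = ((v⁻¹ : Rˣ) : R) • ((u : R) • m) := by
      rw [← mul_smul, ← Units.val_mul, div_eq_inv_mul]
    rw [h1, h, ← mul_smul, Units.inv_mul, one_smul]

theorem LT_aux_countable {R M : Type*} [CommRing R] [AddCommGroup M] [Module R M] [Countable M]
    (m : M) : Countable (Rˣ ⧸ LT_aux_stab (R := R) m) := by
  have hwd : ∀ u v : Rˣ, (QuotientGroup.leftRel (LT_aux_stab (R := R) m)) u v →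
      (u : R) • m = (v : R) • m := by
    intro u v h
    rw [QuotientGroup.leftRel_apply] at h
    have h1 : u⁻¹ * v = v / u := by rw [div_eq_mul_inv, mul_comm]
    rw [h1, LT_aux_mem] at h
    exact h.symm
  refine Function.Injective.countable
    (f := Quotient.lift (s := QuotientGroup.leftRel (LT_aux_stab (R := R) m))
      (fun u : Rˣ => (u : R) • m) hwd) ?_
  intro p q hpq
  induction p using Quotient.inductionOn with
  | _ u =>
  induction q using Quotient.inductionOn with
  | _ v =>
  have h : (u : R) • m = (v : R) • m := hpq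
  apply Quotient.sound
  show (QuotientGroup.leftRel (LT_aux_stab (R := R) m)) u v
  rw [QuotientGroup.leftRel_apply]
  have h1 : u⁻¹ * v = v / u := by rw [div_eq_mul_inv, mul_comm]
  rw [h1, LT_aux_mem]
  exact h.symm

theorem LT_aux_main {X R M : Type*} [MeasurableSpace X] (μ : Measure X)
    [IsProbabilityMeasure μ] (S : X → X) (hS : MeasurePreserving S μ μ) (hmix : MixOrd μ S 1)
    [CommRing R] [AddCommGroup M] [Module R M] [Countable M] (φ : X → Rˣ)
    (hφ : ∀ m m' : M, MeasurableSet {x | (φ x : R) • m = m'})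
    (htr : ∀ v : M, v ≠ 0 → Trans μ S φ v) {s : ℕ} (S0 : Finset (Fin s)) :
    ∀ (m : Fin s → M), m ≠ 0 → (∀ i, m i ≠ 0 → i ∈ S0) → Small μ S φ m := by
  classical
  induction S0 using Finset.strongInduction with
  | _ S0 IH =>
  intro m hm hsupp
  by_contra hns
  -- every `b` has collisions
  have hcoll : ∀ b, ∃ c : ℝ, 0 < c ∧ ∀ N₀ : ℕ, ∃ N ≥ N₀, c * N ≤
      ∑ n ∈ Finset.range N, (μ.prod μ).real
        {z | coc S φ n z.1 / coc S φ n z.2 ∈ LT_aux_stab (R := R) (m b)} := by
    intro b
    by_cases hb : m b = 0
    · refine ⟨1, one_pos, fun N₀ => ⟨N₀, le_rfl, ?_⟩⟩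
      have h1 : ∀ n : ℕ, (μ.prod μ).real
          {z | coc S φ n z.1 / coc S φ n z.2 ∈ LT_aux_stab (R := R) (m b)} = 1 := by
        intro n
        have h2 : {z : X × X | coc S φ n z.1 / coc S φ n z.2 ∈ LT_aux_stab (R := R) (m b)} =
            Set.univ := by
          ext z
          simp only [Set.mem_univ, iff_true]
          show _ ∈ LT_aux_stab (R := R) (m b)
          rw [LT_aux_mem, hb, smul_zero, smul_zero]
        rw [h2]
        simp
      simp [h1]
    · -- another nonzero entry
      by_cases hother : ∃ a, a ≠ b ∧ m a ≠ 0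
      · obtain ⟨a, hab, ha⟩ := hother
        have h := coll_of_not_small μ S hS hmix φ hφ m a b hab (fun v hv hva hvs =>
          IH (S0.erase a) (Finset.erase_ssubset (hsupp a ha)) v hv (fun i hi =>
            Finset.mem_erase.mpr ⟨fun h => hi (by rw [h, hva]),
              hsupp i (fun h => hi (hvs i h))⟩)) hns
        obtain ⟨c, hc, hcc⟩ := h
        refine ⟨c, hc, fun N₀ => ?_⟩
        obtain ⟨N, hN, hle⟩ := hcc N₀
        refine ⟨N, hN, hle.trans (le_of_eq ?_)⟩
        refine Finset.sum_congr rfl fun n _ => ?_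
        congr 1
        ext z
        show cv S φ n z.1 • m b = cv S φ n z.2 • m b ↔ _ ∈ LT_aux_stab (R := R) (m b)
        rw [LT_aux_mem]
        rfl
      · -- only one nonzero entry: `Small` holds trivially
        exfalso
        apply hns
        intro ε hε
        refine ⟨0, fun n _ => ?_⟩
        have h1 : {x | ∑ i, cv S φ (n i) x • m i = 0} = ∅ := by
          ext x
          simp only [Set.mem_empty_iff_false, iff_false]
          intro hx
          have hx' : ∑ i, cv S φ (n i) x • m i = 0 := hx
          rw [Finset.sum_eq_single b] at hx'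
          · apply hb
            have h2 : ((coc S φ (n b) x)⁻¹ : Rˣ).1 • (cv S φ (n b) x • m b) = m b := by
              unfold cv
              rw [← mul_smul, Units.inv_mul, one_smul]
            rw [hx', smul_zero] at h2
            exact h2.symm
          · intro a _ hab
            have : m a = 0 := by
              by_contra h
              exact hother ⟨a, hab, h⟩
            rw [this, smul_zero]
          · intro h
            exact absurd (Finset.mem_univ b) h
        rw [h1]
        simpa using hε
  obtain ⟨l, hl⟩ := abs_tight μ S hS hmix (fun b => LT_aux_stab (R := R) (m b))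
    (fun b => LT_aux_countable (m b)) φ (fun b g => by
      have h1 : {x | φ x / g ∈ LT_aux_stab (R := R) (m b)} =
          {x | (φ x : R) • m b = (g : R) • m b} := by
        ext x
        show _ ∈ LT_aux_stab (R := R) (m b) ↔ _
        rw [LT_aux_mem]
        rfl
      rw [h1]
      exact hφ _ _) hcoll
  apply hns
  refine small_of_tight μ S hS φ hφ m hm (fun v _ hv => htr v hv) l (fun ε hε => ?_)
  obtain ⟨C, hC⟩ := hl ε hε
  refine ⟨C, fun n => ?_⟩
  have h1 : {x | ¬ ∃ c ∈ C, ∀ b, cv S φ n x • m b = ((l ^ n * c : Rˣ) : R) • m b} =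
      {x | ¬ ∃ c ∈ C, ∀ b, coc S φ n x / (l ^ n * c) ∈ LT_aux_stab (R := R) (m b)} := by
    ext x
    simp only [Set.mem_ofPred_eq, LT_aux_mem]
    rfl
  rw [h1]
  exact hC n

theorem small_of_trans {X R M : Type*} [MeasurableSpace X] (μ : Measure X)
    [IsProbabilityMeasure μ] (S : X → X) (hS : MeasurePreserving S μ μ) (hmix : MixOrd μ S 1)
    [CommRing R] [AddCommGroup M] [Module R M] [Countable M] (φ : X → Rˣ)
    (hφ : ∀ m m' : M, MeasurableSet {x | (φ x : R) • m = m'})
    (htr : ∀ v : M, v ≠ 0 → Trans μ S φ v) {s : ℕ} (m : Fin s → M) (hm : m ≠ 0) :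
    Small μ S φ m :=
  LT_aux_main μ S hS hmix φ hφ htr Finset.univ m hm (fun i _ => Finset.mem_univ i)

end H567MM.P
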