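import Pool.Agent.H567R2.MN.Stubs

/-! ML: approximation of mixing functions (after the proof of FF by helper781). -/

namespace H567MM.P

open MeasureTheory Filter Topology

theorem mix_of_approx {Z : Type*} [MeasurableSpace Z] (ρ : Measure Z) [IsProbabilityMeasure ρ]
    (T : Z → Z) (hT : MeasurePreserving T ρ ρ) (k : ℕ) (C : Set (Z → ℂ))
    (hC : ∀ g ∈ C, Measurable g ∧ ∀ z, ‖g z‖ ≤ 1)
    (h : ∀ g : Fin (k + 1) → Z → ℂ, (∀ j, g j ∈ C) → ∀ ε : ℝ, 0 < ε → ∃ G : ℕ,
      ∀ n : Fin (k + 1) → ℕ, n 0 = 0 → (∀ j : Fin k, n j.castSucc + G ≤ n j.succ) →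
      ‖∫ z, ∏ j, g j (T^[n j] z) ∂ρ - ∏ j, ∫ z, g j z ∂ρ‖ < ε)
    (F : Fin (k + 1) → Z → ℂ) (hF : ∀ j, Measurable (F j)) (hb : ∀ j z, ‖F j z‖ ≤ 1)
    (happ : ∀ j, ∀ ε : ℝ, 0 < ε → ∃ (N : ℕ) (c : Fin N → ℂ) (g : Fin N → Z → ℂ),
      (∀ l, g l ∈ C) ∧ ∫ z, ‖F j z - ∑ l, c l * g l z‖ ∂ρ < ε) (ε : ℝ) (hε : 0 < ε) :
    ∃ G : ℕ, ∀ n : Fin (k + 1) → ℕ, n 0 = 0 → (∀ j : Fin k, n j.castSucc + G ≤ n j.succ) →
      ‖∫ z, ∏ j, F j (T^[n j] z) ∂ρ - ∏ j, ∫ z, F j z ∂ρ‖ < ε := by
  classical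
  -- the induction
  have key : ∀ i : ℕ, i ≤ k + 1 → ∀ F : Fin (k + 1) → Z → ℂ,
      (∀ j : Fin (k + 1), j.val < i → Measurable (F j) ∧ (∀ z, ‖F j z‖ ≤ 1) ∧
        ∀ ε : ℝ, 0 < ε → ∃ (N : ℕ) (c : Fin N → ℂ) (g : Fin N → Z → ℂ),
          (∀ l, g l ∈ C) ∧ ∫ z, ‖F j z - ∑ l, c l * g l z‖ ∂ρ < ε) →
      (∀ j : Fin (k + 1), i ≤ j.val → F j ∈ C) →
      Tendsto (fun n : Fin (k + 1) → ℕ => ∫ z, ∏ j, F j (T^[n j] z) ∂ρ) (FF_gap k)
        (𝓝 (∏ j, ∫ z, F j z ∂ρ)) := by
    intro i
    induction i with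
    | zero =>
      intro _ F _ hF
      rw [Metric.tendsto_nhds]
      intro ε hε
      rw [FF_eventually]
      obtain ⟨G, hG⟩ := h F (fun j => hF j (Nat.zero_le _)) ε hε
      refine ⟨G, fun n h0 h1 => ?_⟩
      rw [dist_eq_norm]
      exact hG n h0 h1
    | succ i ih =>
      intro hik F hF1 hF2
      have ih' := ih (by omega)
      set i0 : Fin (k + 1) := ⟨i, by omega⟩ with hi0
      have hFm : ∀ j, Measurable (F j) ∧ ∀ z, ‖F j z‖ ≤ 1 := by
        intro j
        rcases lt_or_ge j.val (i + 1) with hj | hj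
        · exact ⟨(hF1 j hj).1, (hF1 j hj).2.1⟩
        · exact hC _ (hF2 j hj)
      obtain ⟨-, -, hFB⟩ := hF1 i0 (by simp [hi0])
      have hiter : ∀ n, MeasurePreserving (T^[n]) ρ ρ := fun n => hT.iterate n
      have hprod : ∀ (g : Z → ℂ) (n : Fin (k + 1) → ℕ) (z : Z),
          ∏ j, (Function.update F i0 g) j (T^[n j] z) =
            g (T^[n i0] z) * ∏ j ∈ Finset.univ.erase i0, F j (T^[n j] z) := by
        intro g n z
        rw [← Finset.mul_prod_erase _ _ (Finset.mem_univ i0), Function.update_self]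
        congr 1
        refine Finset.prod_congr rfl fun j hj => ?_
        rw [Function.update_of_ne (Finset.ne_of_mem_erase hj)]
      have hprod2 : ∀ (g : Z → ℂ),
          ∏ j, ∫ z, (Function.update F i0 g) j z ∂ρ =
            (∫ z, g z ∂ρ) * ∏ j ∈ Finset.univ.erase i0, ∫ z, F j z ∂ρ := by
        intro g
        rw [← Finset.mul_prod_erase _ _ (Finset.mem_univ i0), Function.update_self]
        congr 1
        refine Finset.prod_congr rfl fun j hj => ?_
        rw [Function.update_of_ne (Finset.ne_of_mem_erase hj)]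
      have hself : Function.update F i0 (F i0) = F := Function.update_eq_self _ _
      have e1 : (fun n : Fin (k + 1) → ℕ => ∫ z, ∏ j, F j (T^[n j] z) ∂ρ) =
          fun n => ∫ z, F i0 (T^[n i0] z) * ∏ j ∈ Finset.univ.erase i0, F j (T^[n j] z) ∂ρ := by
        funext n
        refine integral_congr_ae (Filter.Eventually.of_forall fun z => ?_)
        have := hprod (F i0) n z
        rw [hself] at this
        exact this
      have e2 : ∏ j, ∫ z, F j z ∂ρ =
          (∫ z, F i0 z ∂ρ) * ∏ j ∈ Finset.univ.erase i0, ∫ z, F j z ∂ρ := by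
        have := hprod2 (F i0)
        rw [hself] at this
        exact this
      rw [e1, e2]
      refine FF_step ρ (FF_gap k) (fun n => T^[n i0]) (fun n => hiter _)
        (fun n z => ∏ j ∈ Finset.univ.erase i0, F j (T^[n j] z)) ?_ ?_ _ ?_ (F i0)
        (hFm i0).1 (hFm i0).2 ?_
      · intro n
        exact Finset.measurable_prod _ fun j _ => (hFm j).1.comp (hiter _).measurable
      · intro n z
        rw [norm_prod]
        exact Finset.prod_le_one (fun j _ => norm_nonneg _) fun j _ => (hFm j).2 _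
      · rw [norm_prod]
        refine Finset.prod_le_one (fun j _ => norm_nonneg _) fun j _ => ?_
        calc ‖∫ z, F j z ∂ρ‖ ≤ 1 * ρ.real Set.univ :=
              norm_integral_le_of_norm_le_const (Filter.Eventually.of_forall (hFm j).2)
          _ = 1 := by simp
      · intro ε hε
        obtain ⟨N, c, g, hg, hlt⟩ := hFB ε hε
        refine ⟨N, c, g, fun l => ⟨(hC _ (hg l)).1, (hC _ (hg l)).2, ?_⟩, hlt⟩
        have h1 := ih' (Function.update F i0 (g l)) ?_ ?_
        · simp only [hprod, hprod2] at h1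
          exact h1
        · intro j hj
          rw [Function.update_of_ne (by rintro rfl; simp [hi0] at hj)]
          exact hF1 j (by omega)
        · intro j hj
          by_cases hji : j = i0
          · subst hji
            rw [Function.update_self]
            exact hg l
          · rw [Function.update_of_ne hji]
            refine hF2 j ?_
            have : j.val ≠ i := fun h => hji (Fin.ext h)
            omega
  have h1 := key (k + 1) le_rfl F (fun j _ => ⟨hF j, hb j, happ j⟩)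
    (fun j hj => absurd j.isLt (by omega))
  rw [Metric.tendsto_nhds] at h1
  obtain ⟨G, hG⟩ := (FF_eventually k _).1 (h1 ε hε)
  refine ⟨G, fun n h0 hn => ?_⟩
  have h2 := hG n h0 hn
  rw [dist_eq_norm] at h2
  exact h2

end H567MM.P
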