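import Pool.Agent.H567R2.MN.Stubs

/-! Task PB (helper702). -/

set_option autoImplicit false

namespace H567MM.P

open MeasureTheory Filter Topology

theorem PL_bot {X R M : Type*} [MeasurableSpace X] (μ : Measure X)
    [IsProbabilityMeasure μ] (S : X → X) (hS : MeasurePreserving S μ μ)
    [CommRing R] [AddCommGroup M] [Module R M] [Countable M] (φ : X → Rˣ) (α : X → Dual M)
    (ν : Measure (Dual M)) (hν : IsHaarProb ν) (k : ℕ) (hk : MixOrd μ S k) :
    PL μ ν S φ α k (⊥ : Submodule R M) := by
  intro A m hA hm ε hε
  obtain ⟨G, hG⟩ := hk A hA ε hε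
  refine ⟨G, fun n h0 hn => ?_⟩
  have hm0 : ∀ j, m j = 0 := fun j => (Submodule.mem_bot R).1 (hm j)
  simp only [hm0]
  rw [ten_int_zero μ S hS φ α ν hν A hA n]
  simp only [ten_integral_zero μ ν hν _ (hA _)]
  rw [← Complex.ofReal_prod, ← Complex.ofReal_sub, Complex.norm_real, Real.norm_eq_abs]
  exact hG n h0 hn

theorem mixOrd_one {X : Type*} [MeasurableSpace X] (μ : Measure X)
    [IsProbabilityMeasure μ] (S : X → X) (k : ℕ) (hk : MixOrd μ S (k + 1)) :
    MixOrd μ S 1 := by
  intro A hA ε hε
  let A' : Fin (k + 1 + 1) → Set X := fun j => if h : j.val < 2 then A ⟨j.val, h⟩ else Set.univ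
  have hA' : ∀ j, MeasurableSet (A' j) := by
    intro j
    by_cases h : j.val < 2
    · simp only [A', dif_pos h]; exact hA _
    · simp only [A', dif_neg h]; exact MeasurableSet.univ
  obtain ⟨G, hG⟩ := hk A' hA' ε hε
  refine ⟨G, fun n h0 hn => ?_⟩
  let n' : Fin (k + 1 + 1) → ℕ := fun j => if j.val = 0 then 0 else n 1 + (j.val - 1) * G
  have h1 : G ≤ n 1 := by
    have := hn 0
    simp only [Fin.castSucc_zero, Fin.succ_zero_eq_one] at this
    rw [h0] at this
    omega
  have h2 := hG n' (by simp [n']) (by
    intro j
    by_cases hj : j.val = 0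
    · simp only [n', Fin.val_castSucc, Fin.val_succ, hj, if_pos]
      simp
      exact h1
    · simp only [n', Fin.val_castSucc, Fin.val_succ]
      rw [if_neg hj, if_neg (by omega)]
      have : j.val + 1 - 1 = (j.val - 1) + 1 := by omega
      rw [this, add_mul, one_mul]
      omega)
  have e1 : (⋂ j, S^[n' j] ⁻¹' A' j) = ⋂ j, S^[n j] ⁻¹' A j := by
    ext x
    simp only [Set.mem_iInter, Set.mem_preimage]
    constructor
    · intro h j
      have h3 := h ⟨j.val, by have := j.2; omega⟩
      fin_cases j
      · simp only [n', A'] at h3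
        simpa [h0] using h3
      · simp only [n', A'] at h3
        simpa using h3
    · intro h j
      by_cases hj : j.val < 2
      · have h3 := h ⟨j.val, hj⟩
        simp only [A', dif_pos hj]
        have e2 : n' j = n ⟨j.val, hj⟩ := by
          rcases j with ⟨j, hj'⟩
          simp only at hj
          interval_cases j
          · simp [n', h0]
          · simp [n']
        rw [e2]
        exact h3
      · simp only [A', dif_neg hj]
        trivial
  have e3 : ∏ j, μ.real (A' j) = ∏ j, μ.real (A j) := by
    rw [Fin.prod_univ_succ, Fin.prod_univ_succ, Fin.prod_univ_two]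
    have : ∏ j : Fin k, μ.real (A' j.succ.succ) = 1 := by
      apply Finset.prod_eq_one
      intro j _
      have hj : ¬ (j.succ.succ : Fin (k + 1 + 1)).val < 2 := by
        simp only [Fin.val_succ]; omega
      simp only [A', dif_neg hj]
      exact probReal_univ
    rw [this, mul_one]
    rfl
  rw [e1, e3] at h2
  exact h2

theorem mixOrd_zero {X : Type*} [MeasurableSpace X] (μ : Measure X) (S : X → X) :
    MixOrd μ S 0 := by
  intro A hA ε hε
  refine ⟨0, fun n h0 hn => ?_⟩
  have e1 : (⋂ j, S^[n j] ⁻¹' A j) = A 0 := by
    ext x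
    simp only [Set.mem_iInter, Set.mem_preimage]
    constructor
    · intro h
      have := h 0
      rw [h0] at this
      exact this
    · intro h j
      have : j = 0 := by
        apply Fin.ext
        have := j.2
        simp only [Fin.val_zero]
        omega
      subst this
      rw [h0]
      exact h
  rw [e1]
  simp only [Fin.prod_univ_succ, Finset.univ_eq_empty, Finset.prod_empty, mul_one]
  simpa using hε

end H567MM.P
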