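import Pool.Agent.H567R2.MN.Stubs

/-! RC: recurrent elements. -/

namespace H567MM.P

open MeasureTheory Filter Topology

theorem RC_aux_mp {Ω κ : Type*} [MeasurableSpace Ω] (P : Measure Ω) [IsProbabilityMeasure P]
    (S : Ω → Ω) (hS : MeasurePreserving S P P)
    [Countable κ] [MeasurableSpace κ] [DiscreteMeasurableSpace κ] (e : Ω → (κ ≃ κ))
    (he : ∀ q q', MeasurableSet {ω | e ω q = q'}) :
    MeasurePreserving (fun z : Ω × κ => (S z.1, (e z.1).symm z.2)) (P.prod Measure.count)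
      (P.prod Measure.count) := by
  have hm : Measurable (Function.uncurry fun (ω : Ω) (q : κ) => (e ω).symm q) := by
    refine measurable_to_countable' fun q' => ?_
    have : Function.uncurry (fun (ω : Ω) (q : κ) => (e ω).symm q) ⁻¹' {q'} =
        ⋃ q : κ, {ω | e ω q' = q} ×ˢ {q} := by
      ext ⟨ω, q⟩
      simp only [Set.mem_preimage, Function.uncurry_apply_pair, Set.mem_singleton_iff,
        Set.mem_iUnion, Set.mem_prod, Set.mem_ofPred_eq]
      constructor
      · intro h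
        exact ⟨q, by rw [← h, Equiv.apply_symm_apply], rfl⟩
      · rintro ⟨q2, h1, rfl⟩
        rw [← h1, Equiv.symm_apply_apply]
    rw [this]
    exact MeasurableSet.iUnion fun q => (he q' q).prod (measurableSet_singleton q)
  refine hS.skew_product hm (ae_of_all _ fun ω => ?_)
  ext s hs
  rw [Measure.map_apply Measurable.of_discrete hs]
  have h1 : (fun q : κ => (e ω).symm q) ⁻¹' s = (e ω) '' s := by
    ext q
    simp only [Set.mem_preimage, Set.mem_image]
    constructor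
    · intro h
      exact ⟨_, h, Equiv.apply_symm_apply _ _⟩
    · rintro ⟨q2, h1, rfl⟩
      rwa [Equiv.symm_apply_apply]
  show Measure.count ((fun q : κ => (e ω).symm q) ⁻¹' s) = Measure.count s
  rw [h1, Measure.count_injective_image (e ω).injective]

theorem RC_aux_card {Ω κ : Type*} [MeasurableSpace Ω] (P : Measure Ω) [IsProbabilityMeasure P]
    (S : Ω → Ω) (hS : Ergodic S P)
    [Countable κ] [MeasurableSpace κ] [DiscreteMeasurableSpace κ] (e : Ω → (κ ≃ κ))
    (B : Set (Ω × κ)) (hB : MeasurableSet B) (hfin : (P.prod Measure.count) B ≠ ⊤)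
    (hinv : ∀ᵐ ω ∂P, ∀ q : κ, ((ω, q) ∈ B ↔ (S ω, (e ω).symm q) ∈ B)) :
    ∃ f : ℕ, ∀ᵐ ω ∂P, {q | (ω, q) ∈ B}.encard ≤ f := by
  set N : Ω → ENNReal := fun ω => Measure.count (Prod.mk ω ⁻¹' B) with hN
  have hNm : Measurable N := measurable_measure_prodMk_left hB
  have hNS : N ∘ S =ᵐ[P] N := by
    filter_upwards [hinv] with ω hω
    show Measure.count (Prod.mk (S ω) ⁻¹' B) = Measure.count (Prod.mk ω ⁻¹' B)
    have : Prod.mk (S ω) ⁻¹' B = (e ω).symm '' (Prod.mk ω ⁻¹' B) := by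
      ext q
      simp only [Set.mem_preimage, Set.mem_image]
      constructor
      · intro h
        refine ⟨e ω q, ?_, Equiv.symm_apply_apply _ _⟩
        rw [hω, Equiv.symm_apply_apply]
        exact h
      · rintro ⟨q2, h1, rfl⟩
        exact (hω q2).1 h1
    rw [this, Measure.count_injective_image (e ω).symm.injective]
  obtain ⟨c, hc⟩ := hS.ae_eq_const_of_ae_eq_comp_ae hNm.aestronglyMeasurable hNS
  have hint : ∫⁻ ω, N ω ∂P ≠ ⊤ := by
    rw [Measure.prod_apply hB] at hfin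
    exact hfin
  have hcf : c ≠ ⊤ := by
    intro htop
    apply hint
    rw [lintegral_congr_ae hc]
    simp [htop]
  refine ⟨⌈c.toReal⌉₊, ?_⟩
  filter_upwards [hc] with ω hω
  have h1 : Measure.count (Prod.mk ω ⁻¹' B) = c := hω
  rw [Measure.count_apply (measurable_prodMk_left hB)] at h1
  have h2 : {q | (ω, q) ∈ B} = Prod.mk ω ⁻¹' B := rfl
  rw [h2]
  have h3 : (Prod.mk ω ⁻¹' B).Finite := by
    by_contra hcon
    have : (Prod.mk ω ⁻¹' B).encard = ⊤ := Set.encard_eq_top_iff.2 hcon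
    rw [this] at h1
    apply hcf
    rw [← h1]
    rfl
  rw [← h3.cast_ncard_eq] at h1 ⊢
  have h4 : ((Prod.mk ω ⁻¹' B).ncard : ℝ) = c.toReal := by
    rw [← h1]
    simp
  have h5 : (Prod.mk ω ⁻¹' B).ncard ≤ ⌈c.toReal⌉₊ := by
    have : ((Prod.mk ω ⁻¹' B).ncard : ℝ) ≤ (⌈c.toReal⌉₊ : ℝ) := by
      rw [h4]; exact Nat.le_ceil _
    exact_mod_cast this
  exact_mod_cast h5

theorem rec_of_not_trans {X R M : Type*} [MeasurableSpace X] (μ : Measure X)
    [IsProbabilityMeasure μ] (S : X → X) (hS : Ergodic S μ)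
    [CommRing R] [AddCommGroup M] [Module R M] [Countable M] (φ : X → Rˣ)
    (hφ : ∀ m m' : M, MeasurableSet {x | (φ x : R) • m = m'}) (m : M)
    (h : ¬ Trans μ S φ m) : Rec μ S φ m := by
  classical
  letI : MeasurableSpace M := ⊤
  have hdisc : DiscreteMeasurableSpace M := ⟨fun _ => trivial⟩
  unfold Trans at h
  push Not at h
  obtain ⟨m', c, hc, h⟩ := h
  set e : X → (M ≃ M) := fun x => MulAction.toPerm (φ x) with he
  have hes : ∀ x q, (e x).symm q = (φ x)⁻¹ • q := fun x q => rfl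
  have hea : ∀ x q, e x q = (φ x : R) • q := fun x q => rfl
  set τ : X × M → X × M := fun z => (S z.1, (e z.1).symm z.2) with hτdef
  have hτ : MeasurePreserving τ (μ.prod Measure.count) (μ.prod Measure.count) :=
    RC_aux_mp μ S hS.toMeasurePreserving e (fun q q' => hφ q q')
  have hit : ∀ (n : ℕ) (x : X) (q : M), τ^[n] (x, q) = (S^[n] x, (coc S φ n x)⁻¹ • q) := by
    intro n x q
    induction n with
    | zero => simp [coc]
    | succ n ih =>
      rw [Function.iterate_succ_apply', ih, hτdef]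
      simp only [hes, coc, mul_inv_rev, Function.iterate_succ_apply', mul_smul]
  have hrec : ∀ N₀ : ℕ, ∃ N ≥ N₀, c * N ≤
      ∑ n ∈ Finset.range N, μ.real {ω | (τ^[n] (ω, m')).2 = m} := by
    intro N₀
    obtain ⟨N, hN, hN2⟩ := h N₀
    refine ⟨N, hN, hN2.trans (le_of_eq (Finset.sum_congr rfl fun n _ => ?_))⟩
    congr 1
    ext x
    simp only [Set.mem_ofPred_eq, hit]
    rw [inv_smul_eq_iff]
    exact eq_comm
  obtain ⟨B, hB, hBfin, hBpos, hBinv⟩ := inv_set μ τ hτ m m' c hc hrec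
  obtain ⟨f, hf⟩ := RC_aux_card μ S hS e B hB hBfin hBinv
  -- invariance in the convenient form
  have hinv1 : ∀ᵐ x ∂μ, ∀ q : M, ((x, (φ x : R) • q) ∈ B ↔ (S x, q) ∈ B) := by
    filter_upwards [hBinv] with x hx q
    have := hx ((φ x : R) • q)
    rw [this]
    show (S x, (φ x)⁻¹ • ((φ x : R) • q)) ∈ B ↔ _
    have h1 : (φ x)⁻¹ • ((φ x : R) • q) = q := by
      have : (φ x : R) • q = φ x • q := rfl
      rw [this, inv_smul_smul]
    rw [h1]
  have hinvn : ∀ᵐ x ∂μ, ∀ (n : ℕ) (q : M), ((x, (coc S φ n x : Rˣ) • q) ∈ B ↔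
      (S^[n] x, q) ∈ B) := by
    have h1 : ∀ᵐ x ∂μ, ∀ n : ℕ, ∀ q : M,
        ((S^[n] x, (φ (S^[n] x) : R) • q) ∈ B ↔ (S (S^[n] x), q) ∈ B) := by
      rw [ae_all_iff]
      intro n
      exact (hS.toMeasurePreserving.iterate n).quasiMeasurePreserving.ae hinv1
    filter_upwards [h1] with x hx n
    induction n with
    | zero => intro q; simp [coc]
    | succ n ih =>
      intro q
      rw [coc, mul_smul, ih]
      have h2 := hx n q
      rw [Function.iterate_succ_apply']
      exact h2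
  -- almost every point sees the set
  set E : Set X := {x | (x, m) ∈ B} with hE
  have hEm : MeasurableSet E := measurable_prodMk_right hB
  have hvis : ∀ᵐ x ∂μ, ∃ n : ℕ, S^[n] x ∈ E := by
    set E' : Set X := {x | ∃ n : ℕ, S^[n] x ∈ E} with hE'
    have hE'm : MeasurableSet E' := by
      have : E' = ⋃ n : ℕ, S^[n] ⁻¹' E := by
        ext x; simp [hE']
      rw [this]
      exact MeasurableSet.iUnion fun n => (hS.toMeasurePreserving.iterate n).measurable hEm
    have hsub : S ⁻¹' E' ⊆ E' := by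
      rintro x ⟨n, hn⟩
      exact ⟨n + 1, by rwa [Function.iterate_succ_apply]⟩
    rcases hS.ae_empty_or_univ_of_preimage_ae_le hE'm.nullMeasurableSet
      (HasSubset.Subset.eventuallyLE hsub) with h1 | h1
    · exfalso
      have h2 : μ E' = 0 := by rw [measure_congr h1]; exact measure_empty
      have h3 : μ E = 0 := measure_mono_null (fun x hx => (⟨0, hx⟩ : ∃ n : ℕ, S^[n] x ∈ E)) h2
      exact hBpos h3
    · filter_upwards [h1] with x hx
      have : x ∈ E' := by
        have h4 : E' x = (Set.univ : Set X) x := hx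
        have h5 : (Set.univ : Set X) x := trivial
        rw [← h4] at h5
        exact h5
      exact this
  have hvis2 : ∀ᵐ x ∂μ, ∃ u : Rˣ, (x, u • m) ∈ B := by
    filter_upwards [hvis, hinvn] with x ⟨n, hn⟩ hx
    exact ⟨coc S φ n x, (hx n m).2 hn⟩
  intro ε hε
  obtain ⟨g, hg⟩ : ∃ g : ℕ → M, Function.Surjective g := exists_surjective_nat M
  -- representatives
  have hr : ∀ q : M, ∃ u : Rˣ, (∃ v : Rˣ, v • m = q) → u • m = q := by
    intro q
    by_cases hq : ∃ v : Rˣ, v • m = q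
    · obtain ⟨v, hv⟩ := hq
      exact ⟨v, fun _ => hv⟩
    · exact ⟨1, fun h => absurd h hq⟩
  choose r hr using hr
  set D : ℕ → Set X := fun i => {x | (∃ v : Rˣ, v • m = g i) ∧ (x, g i) ∈ B} with hD
  have hsec : ∀ q : M, MeasurableSet {x | (x, q) ∈ B} := fun q => measurable_prodMk_right hB
  have hDm : ∀ i, MeasurableSet (D i) := by
    intro i
    by_cases hq : ∃ v : Rˣ, v • m = g i
    · have : D i = {x | (x, g i) ∈ B} := by
        ext x; simp only [hD, Set.mem_ofPred_eq]; exact ⟨fun h => h.2, fun h => ⟨hq, h⟩⟩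
      rw [this]; exact hsec _
    · have : D i = ∅ := by
        ext x; simp only [hD, Set.mem_ofPred_eq, Set.mem_empty_iff_false, iff_false]
        exact fun h => hq h.1
      rw [this]; exact MeasurableSet.empty
  have hDun : μ (⋃ i, D i)ᶜ = 0 := by
    have : ∀ᵐ x ∂μ, x ∈ ⋃ i, D i := by
      filter_upwards [hvis2] with x ⟨u, hu⟩
      obtain ⟨i, hi⟩ := hg (u • m)
      exact Set.mem_iUnion.2 ⟨i, ⟨u, hi.symm⟩, by rw [hi]; exact hu⟩
    exact this
  have hlim : Tendsto (fun n => μ (Set.accumulate D n)) atTop (𝓝 (μ (⋃ i, D i))) :=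
    tendsto_measure_iUnion_accumulate
  have hone : μ (⋃ i, D i) = 1 := by
    have := prob_compl_eq_zero_iff (μ := μ) (s := ⋃ i, D i) (MeasurableSet.iUnion hDm)
    exact this.1 hDun
  rw [hone] at hlim
  have hlimr : Tendsto (fun n => μ.real (Set.accumulate D n)) atTop (𝓝 1) := by
    have := (ENNReal.tendsto_toReal (a := 1) ENNReal.one_ne_top).comp hlim
    rw [ENNReal.toReal_one] at this
    exact this
  obtain ⟨n, hn⟩ := ((tendsto_order.1 hlimr).1 (1 - ε) (by linarith)).exists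
  refine ⟨fun q => {x | ∃ i ≤ n, (∃ v : Rˣ, v • m = g i) ∧ (x, r (g i) • q) ∈ B}, (n + 1) * f,
    ?_, ?_, ?_, ?_⟩
  · intro q
    show MeasurableSet {x | ∃ i ≤ n, (∃ v : Rˣ, v • m = g i) ∧ (x, r (g i) • q) ∈ B}
    have : {x | ∃ i ≤ n, (∃ v : Rˣ, v • m = g i) ∧ (x, r (g i) • q) ∈ B} =
        ⋃ i ∈ {i : ℕ | i ≤ n ∧ ∃ v : Rˣ, v • m = g i}, {x | (x, r (g i) • q) ∈ B} := by
      ext x
      simp only [Set.mem_iUnion, Set.mem_ofPred_eq]
      constructor
      · rintro ⟨i, h1, h2, h3⟩; exact ⟨i, ⟨h1, h2⟩, h3⟩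
      · rintro ⟨i, ⟨h1, h2⟩, h3⟩; exact ⟨i, h1, h2, h3⟩
    rw [this]
    exact MeasurableSet.biUnion (Set.to_countable _) fun i _ => hsec _
  · filter_upwards [hinv1] with x hx q
    show (∃ i ≤ n, (∃ v : Rˣ, v • m = g i) ∧ (x, r (g i) • ((φ x : R) • q)) ∈ B) ↔
      (∃ i ≤ n, (∃ v : Rˣ, v • m = g i) ∧ (S x, r (g i) • q) ∈ B)
    have h1 : ∀ i, (r (g i) • ((φ x : R) • q)) = (φ x : R) • (r (g i) • q) := fun i =>
      smul_comm _ _ _
    simp only [h1, hx]
  · filter_upwards [hf] with x hx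
    show {q | ∃ i ≤ n, (∃ v : Rˣ, v • m = g i) ∧ (x, r (g i) • q) ∈ B}.encard ≤
      (((n + 1) * f : ℕ) : ℕ∞)
    have hsub : {q | ∃ i ≤ n, (∃ v : Rˣ, v • m = g i) ∧ (x, r (g i) • q) ∈ B} ⊆
        ⋃ i ∈ Finset.range (n + 1), (fun q => (r (g i))⁻¹ • q) '' {q | (x, q) ∈ B} := by
      rintro q ⟨i, h1, _, h3⟩
      simp only [Set.mem_iUnion]
      exact ⟨i, Finset.mem_range.2 (by omega), r (g i) • q, h3, inv_smul_smul _ _⟩
    refine (Set.encard_le_encard hsub).trans ?_
    have h2 : ∀ s : Finset ℕ, (⋃ i ∈ s, (fun q => (r (g i))⁻¹ • q) ''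
        {q | (x, q) ∈ B}).encard ≤ (s.card * f : ℕ) := by
      intro s
      induction s using Finset.induction_on with
      | empty => simp
      | insert a s ha ih =>
        rw [Finset.set_biUnion_insert, Finset.card_insert_of_notMem ha]
        refine (Set.encard_union_le _ _).trans ?_
        have h3 : ((fun q => (r (g a))⁻¹ • q) '' {q | (x, q) ∈ B}).encard ≤ (f : ℕ∞) :=
          (Set.encard_image_le _ _).trans hx
        calc _ ≤ (f : ℕ∞) + ((s.card * f : ℕ) : ℕ∞) := add_le_add h3 ih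
          _ = (((s.card + 1) * f : ℕ) : ℕ∞) := by push_cast; ring
    have h4 := h2 (Finset.range (n + 1))
    rw [Finset.card_range] at h4
    exact h4
  · show μ.real {x | ∃ i ≤ n, (∃ v : Rˣ, v • m = g i) ∧ (x, r (g i) • m) ∈ B}ᶜ < ε
    have hsub : Set.accumulate D n ⊆
        {x | ∃ i ≤ n, (∃ v : Rˣ, v • m = g i) ∧ (x, r (g i) • m) ∈ B} := by
      intro x hx
      rw [Set.mem_accumulate] at hx
      obtain ⟨i, hi, h1, h2⟩ := hx
      exact ⟨i, hi, h1, by rw [hr (g i) h1]; exact h2⟩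
    have hacc : MeasurableSet (Set.accumulate D n) := by
      rw [Set.accumulate_def]
      exact MeasurableSet.biUnion (Set.to_countable _) fun i _ => hDm i
    have h5 : μ.real {x | ∃ i ≤ n, (∃ v : Rˣ, v • m = g i) ∧ (x, r (g i) • m) ∈ B}ᶜ ≤
        μ.real (Set.accumulate D n)ᶜ := measureReal_mono (Set.compl_subset_compl.2 hsub)
    have h6 : μ.real (Set.accumulate D n)ᶜ = 1 - μ.real (Set.accumulate D n) :=
      probReal_compl_eq_one_sub hacc
    linarith

end H567MM.P
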