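import Pool.Agent.H567R2.MMF.MA
import Pool.Agent.H567R2.MN.Defs

/-! Stubs (each is a task, see table h567n_tasks). -/

namespace H567MM

open MeasureTheory Filter Topology

/-! ### GE: the mean ergodic theorem gives an invariant set of finite measure -/

theorem inv_set {Ω κ : Type*} [MeasurableSpace Ω] (P : Measure Ω) [IsProbabilityMeasure P]
    [Countable κ] [MeasurableSpace κ] [DiscreteMeasurableSpace κ] (τ : Ω × κ → Ω × κ)
    (hτ : MeasurePreserving τ (P.prod Measure.count) (P.prod Measure.count)) (q₀ q₁ : κ)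
    (c : ℝ) (hc : 0 < c) (h : ∀ N₀ : ℕ, ∃ N ≥ N₀, c * N ≤
      ∑ n ∈ Finset.range N, P.real {ω | (τ^[n] (ω, q₁)).2 = q₀}) :
    ∃ B : Set (Ω × κ), MeasurableSet B ∧ (P.prod Measure.count) B ≠ ⊤ ∧
      P {ω | (ω, q₀) ∈ B} ≠ 0 ∧ ∀ᵐ ω ∂P, ∀ q : κ, ((ω, q) ∈ B ↔ τ (ω, q) ∈ B) := by sorry

/-! ### TB: recurrent cocycles are tight -/

theorem tight_of_rec {Ω G : Type*} [MeasurableSpace Ω] (P : Measure Ω) [IsProbabilityMeasure P]
    (S : Ω → Ω) (hS : Ergodic S P) [CommGroup G] [Countable G] [MeasurableSpace G]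
    [DiscreteMeasurableSpace G] (ψ : Ω → G) (hψ : Measurable ψ) (c : ℝ) (hc : 0 < c)
    (h : ∀ N₀ : ℕ, ∃ N ≥ N₀, c * N ≤ ∑ n ∈ Finset.range N, P.real {ω | coc S ψ n ω = 1})
    (ε : ℝ) (hε : 0 < ε) : ∃ K : Finset G, ∀ n : ℕ, P.real {ω | coc S ψ n ω ∉ K} < ε := by sorry

/-! ### CM: coboundary modulo a finite subgroup -/

theorem exists_cob_mod {Ω G : Type*} [MeasurableSpace Ω] (P : Measure Ω)
    [IsProbabilityMeasure P] (S : Ω → Ω) (hS : Ergodic S P) [CommGroup G]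
    [Countable G] [MeasurableSpace G] [DiscreteMeasurableSpace G] (ψ : Ω → G)
    (hψ : Measurable ψ) (B : Set (Ω × G)) (hB : MeasurableSet B)
    (h0 : (P.prod Measure.count) B ≠ 0) (h1 : (P.prod Measure.count) B ≠ ⊤)
    (hinv : ∀ᵐ ω ∂P, ∀ g : G, ((ω, g) ∈ B ↔ (S ω, g * ψ ω) ∈ B)) :
    ∃ H : Subgroup G, Finite H ∧ ∃ u : Ω → G, Measurable u ∧
      ∀ᵐ ω ∂P, u (S ω) / (u ω * ψ ω) ∈ H := by sorry

/-! ### CT: tight cocycles of the square are cohomologous to a constant -/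

theorem coll_tight {X G : Type*} [MeasurableSpace X] (μ : Measure X)
    [IsProbabilityMeasure μ] (S : X → X) (hS : MeasurePreserving S μ μ) (hmix : MixOrd μ S 1)
    [CommGroup G] [Countable G] [MeasurableSpace G] [DiscreteMeasurableSpace G] (φ : X → G)
    (hφ : Measurable φ) (K : Finset G)
    (hK : ∀ n : ℕ, 1 / 2 ≤ (μ.prod μ).real {z | coc S φ n z.1 / coc S φ n z.2 ∈ K}) :
    ∃ l : G, ∀ ε : ℝ, 0 < ε → ∃ C : Finset G, ∀ n : ℕ,
      μ.real {x | ¬ ∃ c ∈ C, coc S φ n x = l ^ n * c} < ε := by sorry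

/-! ### AT: the same modulo finitely many subgroups -/

theorem abs_tight {X Γ : Type*} [MeasurableSpace X] (μ : Measure X)
    [IsProbabilityMeasure μ] (S : X → X) (hS : MeasurePreserving S μ μ) (hmix : MixOrd μ S 1)
    [CommGroup Γ] {s : ℕ} (H : Fin s → Subgroup Γ) (hH : ∀ b, Countable (Γ ⧸ H b)) (φ : X → Γ)
    (hφ : ∀ b, ∀ g : Γ, MeasurableSet {x | φ x / g ∈ H b})
    (hcoll : ∀ b, ∃ c : ℝ, 0 < c ∧ ∀ N₀ : ℕ, ∃ N ≥ N₀, c * N ≤
      ∑ n ∈ Finset.range N, (μ.prod μ).real {z | coc S φ n z.1 / coc S φ n z.2 ∈ H b}) :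
    ∃ l : Γ, ∀ ε : ℝ, 0 < ε → ∃ C : Finset Γ, ∀ n : ℕ,
      μ.real {x | ¬ ∃ c ∈ C, ∀ b, coc S φ n x / (l ^ n * c) ∈ H b} < ε := by sorry

/-! ### GM: the gap lemma for modules -/

theorem gap_module {R M : Type*} [CommRing R] [AddCommGroup M] [Module R M] [Countable M]
    (l : Rˣ) {s : ℕ} (m : Fin s → M) (hm : m ≠ 0)
    (hl : ∀ r : ℕ, 0 < r → ∀ v ∈ Submodule.span R (Set.range m),
      ((l ^ r : Rˣ) : R) • v = v → v = 0) :
    ∃ G : ℕ, ∀ n : Fin s → ℕ, Gaps G n → ∑ i, ((l ^ n i : Rˣ) : R) • m i ≠ 0 := by sorry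

/-! ### E2: elimination (algebra), measurability -/

theorem elim2 {X R M : Type*} [CommRing R] [AddCommGroup M] [Module R M] (S : X → X)
    (φ : X → Rˣ) (x : X) {s : ℕ} (m : Fin s → M) (n : Fin s → ℕ) (r : ℕ) (a : Fin s)
    (h : ∑ i, cv S φ (n i) x • m i = 0) (h' : ∑ i, cv S φ (n i) (S^[r] x) • m i = 0) :
    ∑ i, cv S φ (n i) x •
      (cv S φ r (S^[n i] x) • m i - cv S φ r (S^[n a] x) • m i) = 0 := by sorry
theorem cv_meas {X R M : Type*} [MeasurableSpace X] [CommRing R] [AddCommGroup M] [Module R M]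
    [Countable M] (S : X → X) (hS : Measurable S) (φ : X → Rˣ)
    (hφ : ∀ m m' : M, MeasurableSet {x | (φ x : R) • m = m'}) (n : ℕ) (m m' : M) :
    MeasurableSet {x | cv S φ n x • m = m'} := by sorry

/-! ### B2: the exceptional set is small -/

theorem bad_small2 {X R M : Type*} [MeasurableSpace X] (μ : Measure X) [IsProbabilityMeasure μ]
    (S : X → X) (hS : MeasurePreserving S μ μ) [CommRing R] [AddCommGroup M] [Module R M]
    [Countable M] (φ : X → Rˣ) (hφ : ∀ m m' : M, MeasurableSet {x | (φ x : R) • m = m'}) {s : ℕ}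
    (m : Fin s → M) (a : Fin s)
    (IH : ∀ v : Fin s → M, v ≠ 0 → v a = 0 → (∀ i, m i = 0 → v i = 0) → Small μ S φ v)
    (r : ℕ) (ε : ℝ) (hε : 0 < ε) :
    ∃ G : ℕ, ∀ n : Fin s → ℕ, Gaps G n → μ.real {x |
      ∑ i, cv S φ (n i) x • (cv S φ r (S^[n i] x) • m i - cv S φ r (S^[n a] x) • m i) = 0 ∧
      (fun i => cv S φ r (S^[n i] x) • m i - cv S φ r (S^[n a] x) • m i) ≠ 0} < ε := by sorry

/-! ### CN: if the relation is not rare then there are many collisions -/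

theorem coll_of_not_small {X R M : Type*} [MeasurableSpace X] (μ : Measure X)
    [IsProbabilityMeasure μ] (S : X → X) (hS : MeasurePreserving S μ μ) (hmix : MixOrd μ S 1)
    [CommRing R] [AddCommGroup M] [Module R M] [Countable M] (φ : X → Rˣ)
    (hφ : ∀ m m' : M, MeasurableSet {x | (φ x : R) • m = m'}) {s : ℕ} (m : Fin s → M)
    (a b : Fin s) (hab : a ≠ b)
    (IH : ∀ v : Fin s → M, v ≠ 0 → v a = 0 → (∀ i, m i = 0 → v i = 0) → Small μ S φ v)
    (hns : ¬ Small μ S φ m) :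
    ∃ c : ℝ, 0 < c ∧ ∀ N₀ : ℕ, ∃ N ≥ N₀, c * N ≤ ∑ n ∈ Finset.range N,
      (μ.prod μ).real {z | cv S φ n z.1 • m b = cv S φ n z.2 • m b} := by sorry

/-! ### ST: cocycles close to a constant -/

theorem small_of_tight {X R M : Type*} [MeasurableSpace X] (μ : Measure X)
    [IsProbabilityMeasure μ] (S : X → X) (hS : MeasurePreserving S μ μ)
    [CommRing R] [AddCommGroup M] [Module R M] [Countable M] (φ : X → Rˣ)
    (hφ : ∀ m m' : M, MeasurableSet {x | (φ x : R) • m = m'}) {s : ℕ} (m : Fin s → M)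
    (hm : m ≠ 0) (htr : ∀ v ∈ Submodule.span R (Set.range m), v ≠ 0 → Trans μ S φ v) (l : Rˣ)
    (hl : ∀ ε : ℝ, 0 < ε → ∃ C : Finset Rˣ, ∀ n : ℕ, μ.real {x | ¬ ∃ c ∈ C, ∀ b,
      cv S φ n x • m b = ((l ^ n * c : Rˣ) : R) • m b} < ε) : Small μ S φ m := by sorry

/-! ### LT: the linear theorem -/

theorem small_of_trans {X R M : Type*} [MeasurableSpace X] (μ : Measure X)
    [IsProbabilityMeasure μ] (S : X → X) (hS : MeasurePreserving S μ μ) (hmix : MixOrd μ S 1)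
    [CommRing R] [AddCommGroup M] [Module R M] [Countable M] (φ : X → Rˣ)
    (hφ : ∀ m m' : M, MeasurableSet {x | (φ x : R) • m = m'})
    (htr : ∀ v : M, v ≠ 0 → Trans μ S φ v) {s : ℕ} (m : Fin s → M) (hm : m ≠ 0) :
    Small μ S φ m := by sorry

/-! ### AC: iterates of the affine skew product -/

theorem askew_iterate {X R M : Type*} [CommRing R] [AddCommGroup M] [Module R M] (S : X → X)
    (φ : X → Rˣ) (α : X → Dual M) (n : ℕ) (x : X) (y : Dual M) :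
    (askew S φ α)^[n] (x, y) = (S^[n] x, ac S φ α n x * act (coc S φ n x) y) := by sorry
theorem ac_measurable {X R M : Type*} [MeasurableSpace X] [CommRing R] [AddCommGroup M]
    [Module R M] [Countable M] (S : X → X) (hS : Measurable S) (φ : X → Rˣ)
    (hφ : ∀ m m' : M, MeasurableSet {x | (φ x : R) • m = m'}) (α : X → Dual M)
    (hα : Measurable α) (n : ℕ) : Measurable (ac S φ α n) := by sorry

/-! ### AP: the affine skew product preserves the measure -/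

theorem askew_measurePreserving {X R M : Type*} [MeasurableSpace X] (μ : Measure X)
    [IsProbabilityMeasure μ] (S : X → X) (hS : MeasurePreserving S μ μ)
    [CommRing R] [AddCommGroup M] [Module R M] [Countable M] (φ : X → Rˣ)
    (hφ : ∀ m m' : M, MeasurableSet {x | (φ x : R) • m = m'}) (α : X → Dual M)
    (hα : Measurable α) (ν : Measure (Dual M)) (hν : IsHaarProb ν) :
    MeasurePreserving (askew S φ α) (μ.prod ν) (μ.prod ν) := by sorry

/-! ### AI: integrals of products of tensor functions -/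

theorem ten_int_le {X R M : Type*} [MeasurableSpace X] (μ : Measure X)
    [IsProbabilityMeasure μ] (S : X → X) (hS : MeasurePreserving S μ μ)
    [CommRing R] [AddCommGroup M] [Module R M] [Countable M] (φ : X → Rˣ)
    (hφ : ∀ m m' : M, MeasurableSet {x | (φ x : R) • m = m'}) (α : X → Dual M)
    (hα : Measurable α) (ν : Measure (Dual M)) (hν : IsHaarProb ν) {s : ℕ}
    (A : Fin s → Set X) (hA : ∀ j, MeasurableSet (A j)) (m : Fin s → M) (n : Fin s → ℕ) :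
    ‖∫ z, ∏ j, ten (A j) (m j) ((askew S φ α)^[n j] z) ∂(μ.prod ν)‖ ≤
      μ.real {x | ∑ j, cv S φ (n j) x • m j = 0} := by sorry
theorem ten_int_zero {X R M : Type*} [MeasurableSpace X] (μ : Measure X)
    [IsProbabilityMeasure μ] (S : X → X) (hS : MeasurePreserving S μ μ)
    [CommRing R] [AddCommGroup M] [Module R M] [Countable M] (φ : X → Rˣ) (α : X → Dual M)
    (ν : Measure (Dual M)) (hν : IsHaarProb ν) {s : ℕ}
    (A : Fin s → Set X) (hA : ∀ j, MeasurableSet (A j)) (n : Fin s → ℕ) :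
    ∫ z, ∏ j, ten (A j) (0 : M) ((askew S φ α)^[n j] z) ∂(μ.prod ν) =
      ((μ.real (⋂ j, S^[n j] ⁻¹' A j) : ℝ) : ℂ) := by sorry
theorem ten_integral_zero {X M : Type*} [MeasurableSpace X] (μ : Measure X)
    [IsProbabilityMeasure μ] [AddCommGroup M] [Countable M] (ν : Measure (Dual M))
    (hν : IsHaarProb ν) (A : Set X) (hA : MeasurableSet A) :
    ∫ z, ten A (0 : M) z ∂(μ.prod ν) = ((μ.real A : ℝ) : ℂ) := by sorry
theorem ten_integral_ne {X M : Type*} [MeasurableSpace X] (μ : Measure X)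
    [IsProbabilityMeasure μ] [AddCommGroup M] [Countable M] (ν : Measure (Dual M))
    (hν : IsHaarProb ν) (A : Set X) (hA : MeasurableSet A) (m : M) (hm : m ≠ 0) :
    ∫ z, ten A m z ∂(μ.prod ν) = 0 := by sorry

/-! ### RC, RM: recurrent elements -/

/-- RC -/
theorem rec_of_not_trans {X R M : Type*} [MeasurableSpace X] (μ : Measure X)
    [IsProbabilityMeasure μ] (S : X → X) (hS : Ergodic S μ)
    [CommRing R] [AddCommGroup M] [Module R M] [Countable M] (φ : X → Rˣ)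
    (hφ : ∀ m m' : M, MeasurableSet {x | (φ x : R) • m = m'}) (m : M)
    (h : ¬ Trans μ S φ m) : Rec μ S φ m := by sorry
/-- RM -/
theorem rec_smul {X R M : Type*} [MeasurableSpace X] (μ : Measure X)
    [IsProbabilityMeasure μ] (S : X → X)
    [CommRing R] [AddCommGroup M] [Module R M] [Countable M] (φ : X → Rˣ) (m : M) (r : R)
    (h : Rec μ S φ m) : Rec μ S φ (r • m) := by sorry
/-- RM -/
theorem rec_card {X R M : Type*} [MeasurableSpace X] (μ : Measure X)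
    [IsProbabilityMeasure μ] (S : X → X) (hS : MeasurePreserving S μ μ)
    [CommRing R] [AddCommGroup M] [Module R M] [Countable M] (φ : X → Rˣ) (B : M → Set X)
    (f : ℕ) (hinv : ∀ᵐ x ∂μ, ∀ m', (x ∈ B ((φ x : R) • m') ↔ S x ∈ B m'))
    (hf : ∀ᵐ x ∂μ, {m' | x ∈ B m'}.encard ≤ f) :
    ∀ᵐ x ∂μ, ∃ Z : Finset M, Z.card ≤ f ∧ ∀ t q, S^[t] x ∈ B q → cv S φ t x • q ∈ Z := by sorry

/-! ### ML: approximation of mixing functions -/

theorem mix_of_approx {Z : Type*} [MeasurableSpace Z] (ρ : Measure Z) [IsProbabilityMeasure ρ]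
    (T : Z → Z) (hT : MeasurePreserving T ρ ρ) (k : ℕ) (C : Set (Z → ℂ))
    (hC : ∀ g ∈ C, Measurable g ∧ ∀ z, ‖g z‖ ≤ 1)
    (h : ∀ g : Fin (k + 1) → Z → ℂ, (∀ j, g j ∈ C) → ∀ ε : ℝ, 0 < ε → ∃ G : ℕ,
      ∀ n : Fin (k + 1) → ℕ, n 0 = 0 → (∀ j : Fin k, n j.castSucc + G ≤ n j.succ) →
      ‖∫ z, ∏ j, g j (T^[n j] z) ∂ρ - ∏ j, ∫ z, g j z ∂ρ‖ < ε)
    (F : Fin (k + 1) → Z → ℂ) (hF : ∀ j, Measurable (F j)) (hb : ∀ j z, ‖F j z‖ ≤ 1)
    (happ : ∀ j, ∀ ε : ℝ, 0 < ε → ∃ (N : ℕ) (c : Fin N → ℂ) (g : Fin N → Z → ℂ),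
      (∀ l, g l ∈ C) ∧ ∫ z, ‖F j z - ∑ l, c l * g l z‖ ∂ρ < ε) (ε : ℝ) (hε : 0 < ε) :
    ∃ G : ℕ, ∀ n : Fin (k + 1) → ℕ, n 0 = 0 → (∀ j : Fin k, n j.castSucc + G ≤ n j.succ) →
      ‖∫ z, ∏ j, F j (T^[n j] z) ∂ρ - ∏ j, ∫ z, F j z ∂ρ‖ < ε := by sorry

/-! ### TA, TI: the functions `th` -/

/-- TA -/
theorem th_meas {X R M : Type*} [MeasurableSpace X]
    (S : X → X) (hS : Measurable S)
    [CommRing R] [AddCommGroup M] [Module R M] [Countable M] (φ : X → Rˣ)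
    (hφ : ∀ m m' : M, MeasurableSet {x | (φ x : R) • m = m'}) (α : X → Dual M)
    (hα : Measurable α) (L : Submodule R M) (A : Set X) (hA : MeasurableSet A) (m : M)
    (t t' : ℕ) : Measurable (th S φ α L A m t t') := by sorry
/-- TA -/
theorem th_norm {X R M : Type*} [CommRing R] [AddCommGroup M] [Module R M] (S : X → X)
    (φ : X → Rˣ) (α : X → Dual M) (L : Submodule R M) (A : Set X) (m : M) (t t' : ℕ)
    (z : X × Dual M) : ‖th S φ α L A m t t' z‖ ≤ 1 := by sorry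
/-- TA -/
theorem th_approx {X R M : Type*} [MeasurableSpace X] (μ : Measure X)
    [IsProbabilityMeasure μ] (S : X → X) (hS : MeasurePreserving S μ μ)
    [CommRing R] [AddCommGroup M] [Module R M] [Countable M] (φ : X → Rˣ)
    (hφ : ∀ m m' : M, MeasurableSet {x | (φ x : R) • m = m'}) (α : X → Dual M)
    (hα : Measurable α) (ν : Measure (Dual M)) (hν : IsHaarProb ν) (L : Submodule R M)
    (A : Set X) (hA : MeasurableSet A) (m : M) (t t' : ℕ) (ε : ℝ) (hε : 0 < ε) :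
    ∃ (N : ℕ) (c : Fin N → ℂ) (A' : Fin N → Set X) (m' : Fin N → M),
      (∀ l, MeasurableSet (A' l)) ∧ (∀ l, m' l ∈ L) ∧
      ∫ z, ‖th S φ α L A m t t' z - ∑ l, c l * ten (A' l) (m' l) z‖ ∂(μ.prod ν) < ε := by sorry
/-- TI -/
theorem th_integral {X R M : Type*} [MeasurableSpace X] (μ : Measure X)
    [IsProbabilityMeasure μ] (S : X → X) (hS : MeasurePreserving S μ μ)
    [CommRing R] [AddCommGroup M] [Module R M] [Countable M] (φ : X → Rˣ)
    (hφ : ∀ m m' : M, MeasurableSet {x | (φ x : R) • m = m'}) (α : X → Dual M)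
    (hα : Measurable α) (ν : Measure (Dual M)) (hν : IsHaarProb ν) (L : Submodule R M)
    (A : Set X) (hA : MeasurableSet A) (m : M) (t t' : ℕ) :
    ∫ z, th S φ α L A m t t' z ∂(μ.prod ν) =
      ∫ z, ten A m ((askew S φ α)^[t] z) *
        (starRingEnd ℂ) (ten A m ((askew S φ α)^[t'] z)) ∂(μ.prod ν) := by sorry

/-! ### CS: Cauchy-Schwarz by classes -/

theorem cs_classes {ι κ : Type*} [DecidableEq κ] (s : Finset ι) (a : ι → ℂ) (q : ι → κ) (D : ℕ)
    (Z : Finset κ) (hZ : Z.card ≤ D) (h : ∀ t ∈ s, a t ≠ 0 → q t ∈ Z) :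
    ‖∑ t ∈ s, a t‖ ^ 2 ≤
      D * ‖∑ t ∈ s, ∑ t' ∈ s, (if q t = q t' then a t * (starRingEnd ℂ) (a t') else 0)‖ ∧
    0 ≤ (∑ t ∈ s, ∑ t' ∈ s, (if q t = q t' then a t * (starRingEnd ℂ) (a t') else 0)).re ∧
    (∑ t ∈ s, ∑ t' ∈ s, (if q t = q t' then a t * (starRingEnd ℂ) (a t') else 0)).im = 0 := by
  sorry

/-! ### CZ, DS: weak mixing -/

/-- CZ -/
theorem corr_zero_of_wm {Z : Type*} [MeasurableSpace Z] (ρ : Measure Z) [IsProbabilityMeasure ρ]
    (T : Z → Z) (hT : MeasurePreserving T ρ ρ) (hwm : Ergodic (Prod.map T T) (ρ.prod ρ))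
    (g : Z → ℂ) (hg : Measurable g) (hb : ∀ z, ‖g z‖ ≤ 1) (h0 : ∫ z, g z ∂ρ = 0) :
    CorrZero ρ T g := by sorry
/-- DS -/
theorem dsum_small {Z : Type*} [MeasurableSpace Z] (ρ : Measure Z) [IsProbabilityMeasure ρ]
    (T : Z → Z) (hT : MeasurePreserving T ρ ρ) {s : ℕ} (g : Fin s → Z → ℂ)
    (hg : ∀ j, Measurable (g j)) (hb : ∀ j z, ‖g j z‖ ≤ 1) (j₀ : Fin s)
    (hc : CorrZero ρ T (g j₀)) (ε : ℝ) (hε : 0 < ε) :
    ∃ N : ℕ, 0 < N ∧ ‖∑ t ∈ Finset.range N, ∑ t' ∈ Finset.range N,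
      ∏ j, ∫ z, g j (T^[t] z) * (starRingEnd ℂ) (g j (T^[t'] z)) ∂ρ‖ ≤ ε * N ^ 2 := by sorry

/-! ### KI: the key inequality -/

theorem key_ineq {X R M : Type*} [MeasurableSpace X] (μ : Measure X)
    [IsProbabilityMeasure μ] (S : X → X) (hS : MeasurePreserving S μ μ)
    [CommRing R] [AddCommGroup M] [Module R M] [Countable M] (φ : X → Rˣ)
    (hφ : ∀ m m' : M, MeasurableSet {x | (φ x : R) • m = m'}) (α : X → Dual M)
    (hα : Measurable α) (ν : Measure (Dual M)) (hν : IsHaarProb ν) (L : Submodule R M)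
    (B : M ⧸ L → Set X) (f : ℕ)
    (hinv : ∀ᵐ x ∂μ, ∀ q, (x ∈ B ((φ x : R) • q) ↔ S x ∈ B q))
    (hf : ∀ᵐ x ∂μ, {q | x ∈ B q}.encard ≤ f) {s : ℕ} (A : Fin s → Set X)
    (hA : ∀ j, MeasurableSet (A j)) (m : Fin s → M) (hAB : ∀ j, A j ⊆ B (L.mkQ (m j)))
    (n : Fin s → ℕ) (N : ℕ) :
    ‖∫ z, ∏ j, ten (A j) (m j) ((askew S φ α)^[n j] z) ∂(μ.prod ν)‖ ^ 2 * (N : ℝ) ^ 2 ≤
      (f : ℝ) ^ s * ‖∑ t ∈ Finset.range N, ∑ t' ∈ Finset.range N,
        ∫ z, ∏ j, th S φ α L (A j) (m j) t t' ((askew S φ α)^[n j] z) ∂(μ.prod ν)‖ := by sorry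

/-! ### SA, SB: the step -/

/-- SA -/
theorem step_a {X R M : Type*} [MeasurableSpace X] (μ : Measure X)
    [IsProbabilityMeasure μ] (S : X → X) (hS : MeasurePreserving S μ μ)
    [CommRing R] [AddCommGroup M] [Module R M] [Countable M] (φ : X → Rˣ)
    (hφ : ∀ m m' : M, MeasurableSet {x | (φ x : R) • m = m'}) (α : X → Dual M)
    (hα : Measurable α) (ν : Measure (Dual M)) (hν : IsHaarProb ν)
    (hwm : ∀ (A : Set X) (m : M), MeasurableSet A → m ≠ 0 →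
      CorrZero (μ.prod ν) (askew S φ α) (ten A m)) (k : ℕ) (L : Submodule R M)
    (hL : PL μ ν S φ α k L) (B : M ⧸ L → Set X) (f : ℕ)
    (hinv : ∀ᵐ x ∂μ, ∀ q, (x ∈ B ((φ x : R) • q) ↔ S x ∈ B q))
    (hf : ∀ᵐ x ∂μ, {q | x ∈ B q}.encard ≤ f) (A : Fin (k + 1) → Set X)
    (hA : ∀ j, MeasurableSet (A j)) (m : Fin (k + 1) → M) (hm : m ≠ 0)
    (hAB : ∀ j, A j ⊆ B (L.mkQ (m j))) (ε : ℝ) (hε : 0 < ε) :
    ∃ G : ℕ, ∀ n : Fin (k + 1) → ℕ, n 0 = 0 → (∀ j : Fin k, n j.castSucc + G ≤ n j.succ) →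
      ‖∫ z, ∏ j, ten (A j) (m j) ((askew S φ α)^[n j] z) ∂(μ.prod ν)‖ < ε := by sorry
/-- SB -/
theorem step {X R M : Type*} [MeasurableSpace X] (μ : Measure X)
    [IsProbabilityMeasure μ] (S : X → X) (hS : MeasurePreserving S μ μ)
    [CommRing R] [AddCommGroup M] [Module R M] [Countable M] (φ : X → Rˣ)
    (hφ : ∀ m m' : M, MeasurableSet {x | (φ x : R) • m = m'}) (α : X → Dual M)
    (hα : Measurable α) (ν : Measure (Dual M)) (hν : IsHaarProb ν)
    (hwm : ∀ (A : Set X) (m : M), MeasurableSet A → m ≠ 0 →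
      CorrZero (μ.prod ν) (askew S φ α) (ten A m)) (k : ℕ) (L : Submodule R M)
    (hL : PL μ ν S φ α k L) (m₁ : M) (hr : Rec μ S φ (L.mkQ m₁)) :
    PL μ ν S φ α k (L ⊔ Submodule.span R {m₁}) := by sorry

/-! ### ZO: a maximal submodule -/

theorem exists_max {X R M : Type*} [MeasurableSpace X] (μ : Measure X)
    (S : X → X) [CommRing R] [AddCommGroup M] [Module R M] (φ : X → Rˣ) (α : X → Dual M)
    (ν : Measure (Dual M)) (k : ℕ) (h0 : PL μ ν S φ α k ⊥) :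
    ∃ L : Submodule R M, PL μ ν S φ α k L ∧ ∀ L' : Submodule R M, L < L' →
      ¬ PL μ ν S φ α k L' := by sorry

/-! ### PB: the bottom -/

theorem PL_bot {X R M : Type*} [MeasurableSpace X] (μ : Measure X)
    [IsProbabilityMeasure μ] (S : X → X) (hS : MeasurePreserving S μ μ)
    [CommRing R] [AddCommGroup M] [Module R M] [Countable M] (φ : X → Rˣ) (α : X → Dual M)
    (ν : Measure (Dual M)) (hν : IsHaarProb ν) (k : ℕ) (hk : MixOrd μ S k) :
    PL μ ν S φ α k (⊥ : Submodule R M) := by sorry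
theorem mixOrd_one {X : Type*} [MeasurableSpace X] (μ : Measure X)
    [IsProbabilityMeasure μ] (S : X → X) (k : ℕ) (hk : MixOrd μ S (k + 1)) :
    MixOrd μ S 1 := by sorry
theorem mixOrd_zero {X : Type*} [MeasurableSpace X] (μ : Measure X) (S : X → X) :
    MixOrd μ S 0 := by sorry

/-! ### FM: the top -/

theorem PL_top {X R M : Type*} [MeasurableSpace X] (μ : Measure X)
    [IsProbabilityMeasure μ] (S : X → X) (hS : MeasurePreserving S μ μ) (hmix : MixOrd μ S 1)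
    [CommRing R] [AddCommGroup M] [Module R M] [Countable M] (φ : X → Rˣ)
    (hφ : ∀ m m' : M, MeasurableSet {x | (φ x : R) • m = m'}) (α : X → Dual M)
    (hα : Measurable α) (ν : Measure (Dual M)) (hν : IsHaarProb ν) (k : ℕ) (L : Submodule R M)
    (hL : PL μ ν S φ α k L) (htr : ∀ q : M ⧸ L, q ≠ 0 → Trans μ S φ q) :
    PL μ ν S φ α k (⊤ : Submodule R M) := by sorry

/-! ### TE: ergodic linear skew products have no recurrent elements -/

theorem trans_of_ergodic {X R M : Type*} [MeasurableSpace X] (μ : Measure X)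
    [IsProbabilityMeasure μ] (S : X → X) (hS : MeasurePreserving S μ μ)
    [CommRing R] [AddCommGroup M] [Module R M] [Countable M] (φ : X → Rˣ)
    (hφ : ∀ m m' : M, MeasurableSet {x | (φ x : R) • m = m'}) (ν : Measure (Dual M))
    (hν : IsHaarProb ν) (h : Ergodic (skew (M := M) S φ) (μ.prod ν)) (m : M) (hm : m ≠ 0) :
    Trans μ S φ m := by sorry

/-! ### M2: the result -/

theorem main2 {X R M : Type*} [MeasurableSpace X] (μ : Measure X)
    [IsProbabilityMeasure μ] (S : X → X) (hS : MeasurePreserving S μ μ)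
    [CommRing R] [AddCommGroup M] [Module R M] [Countable M] (φ : X → Rˣ)
    (hφ : ∀ m m' : M, MeasurableSet {x | (φ x : R) • m = m'}) (α : X → Dual M)
    (hα : Measurable α) (ν : Measure (Dual M)) (hν : IsHaarProb ν) (k : ℕ)
    (hk : MixOrd μ S k)
    (h : Ergodic (Prod.map (askew S φ α) (askew S φ α)) ((μ.prod ν).prod (μ.prod ν)) ∨
      Ergodic (skew (M := M) S φ) (μ.prod ν)) :
    MixOrd (μ.prod ν) (askew S φ α) k := by sorry

end H567MM
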