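import Pool.Agent.H567R2.MN.Stubs
import Pool.Agent.H567R2.MMF.CO
import Pool.Agent.H567R2.MMF.SP
import Pool.Agent.H567R2.MMF.FI
import Pool.Agent.H567R2.MMF.H2

/-! TE: ergodic linear skew products have no recurrent elements. -/

namespace H567MM.P

open MeasureTheory Filter Topology H567MM

/-- the correlations of two characters -/
theorem TE_aux_val {X R M : Type*} [MeasurableSpace X] (μ : Measure X)
    [IsProbabilityMeasure μ] (S : X → X) (hS : MeasurePreserving S μ μ)
    [CommRing R] [AddCommGroup M] [Module R M] [Countable M] (φ : X → Rˣ)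
    (hφ : ∀ m m' : M, MeasurableSet {x | (φ x : R) • m = m'}) (ν : Measure (Dual M))
    (hν : IsHaarProb ν) (m m' : M) (n : ℕ) :
    ∫ z, (starRingEnd ℂ) ((z.2 m' : Circle) : ℂ) *
      ((((skew (M := M) S φ)^[n] z).2 m : Circle) : ℂ) ∂(μ.prod ν) =
      ((μ.real {x | cv S φ n x • m = m'} : ℝ) : ℂ) := by
  have := hν.1
  have hT := H567MM.skew_measurePreserving μ S hS φ hφ ν hν
  have hmeas := H567MM.H2_aux_meas S hS.measurable φ hφ n m m'
  have hm1 : Measurable (fun z : X × Dual M => (starRingEnd ℂ) ((z.2 m' : Circle) : ℂ) *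
      ((((skew (M := M) S φ)^[n] z).2 m : Circle) : ℂ)) := by
    refine Measurable.mul ?_ ?_
    · exact Complex.continuous_conj.measurable.comp ((H567MM.H2_aux_eval m').comp measurable_snd)
    · exact (H567MM.H2_aux_eval m).comp (measurable_snd.comp (hT.measurable.iterate n))
  have hint : Integrable (fun z : X × Dual M => (starRingEnd ℂ) ((z.2 m' : Circle) : ℂ) *
      ((((skew (M := M) S φ)^[n] z).2 m : Circle) : ℂ)) (μ.prod ν) := by
    refine Integrable.of_bound (C := 1) hm1.aestronglyMeasurable ?_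
    refine Filter.Eventually.of_forall fun z => ?_
    rw [norm_mul, RCLike.norm_conj, Circle.norm_coe, Circle.norm_coe, one_mul]
  rw [integral_prod _ hint]
  have h6 : ∀ x : X, ∫ y, (starRingEnd ℂ) (((x, y) : X × Dual M).2 m' : ℂ) *
      ((((skew (M := M) S φ)^[n] (x, y)).2 m : Circle) : ℂ) ∂ν =
      {x | cv S φ n x • m = m'}.indicator (fun _ => (1 : ℂ)) x := by
    intro x
    have h7 : ∀ y : Dual M, (starRingEnd ℂ) (((x, y) : X × Dual M).2 m' : ℂ) *
        ((((skew (M := M) S φ)^[n] (x, y)).2 m : Circle) : ℂ) =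
        ((y (cv S φ n x • m - m') : Circle) : ℂ) := by
      intro y
      rw [H567MM.skew_iterate, AddChar.map_sub_eq_div]
      have h8 : (act (coc S φ n x) y) m = y (cv S φ n x • m) := rfl
      simp only [h8]
      rw [Circle.coe_div, div_eq_mul_inv, mul_comm]
      congr 1
      rw [← Circle.coe_inv_eq_conj]
      simp
    simp only [h7]
    by_cases hx : cv S φ n x • m = m'
    · rw [Set.indicator_of_mem (by exact hx)]
      simp [hx]
    · rw [Set.indicator_of_notMem (by exact hx)]
      exact H567MM.int_char ν hν _ (sub_ne_zero.2 hx)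
  have h9 : ∀ x : X, ∫ y, (starRingEnd ℂ) ((((x, y) : X × Dual M).2 m' : Circle) : ℂ) *
      ((((skew (M := M) S φ)^[n] (x, y)).2 m : Circle) : ℂ) ∂ν =
      {x | cv S φ n x • m = m'}.indicator (fun _ => (1 : ℂ)) x := h6
  rw [integral_congr_ae (Eventually.of_forall h9), integral_indicator hmeas]
  simp

theorem trans_of_ergodic {X R M : Type*} [MeasurableSpace X] (μ : Measure X)
    [IsProbabilityMeasure μ] (S : X → X) (hS : MeasurePreserving S μ μ)
    [CommRing R] [AddCommGroup M] [Module R M] [Countable M] (φ : X → Rˣ)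
    (hφ : ∀ m m' : M, MeasurableSet {x | (φ x : R) • m = m'}) (ν : Measure (Dual M))
    (hν : IsHaarProb ν) (h : Ergodic (skew (M := M) S φ) (μ.prod ν)) (m : M) (hm : m ≠ 0) :
    Trans μ S φ m := by
  intro m' c hc
  have := hν.1
  rcases eq_or_ne m' 0 with rfl | hm'
  · refine ⟨1, fun N hN => ?_⟩
    have h1 : ∀ n : ℕ, {x | cv S φ n x • m = 0} = ∅ := by
      intro n
      rw [Set.eq_empty_iff_forall_notMem]
      intro x hx
      apply hm
      have h2 : ((coc S φ n x : Rˣ) : R) • m = 0 := hx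
      have h3 : (((coc S φ n x)⁻¹ : Rˣ) : R) • (((coc S φ n x : Rˣ) : R) • m) = 0 := by
        rw [h2, smul_zero]
      rwa [smul_smul, Units.inv_mul, one_smul] at h3
    simp only [h1, measureReal_empty, Finset.sum_const_zero]
    have : (0 : ℝ) < N := by exact_mod_cast hN
    positivity
  set P : Measure (X × Dual M) := μ.prod ν with hP
  set T : X × Dual M → X × Dual M := skew (M := M) S φ with hTdef
  have hT : MeasurePreserving T P P := H567MM.skew_measurePreserving μ S hS φ hφ ν hν
  have hm1 : Measurable (fun z : X × Dual M => ((z.2 m : Circle) : ℂ)) :=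
    (H567MM.H2_aux_eval m).comp measurable_snd
  have hm0 : Measurable (fun z : X × Dual M => ((z.2 m' : Circle) : ℂ)) :=
    (H567MM.H2_aux_eval m').comp measurable_snd
  have hL1 : MemLp (fun z : X × Dual M => ((z.2 m : Circle) : ℂ)) 2 P :=
    MemLp.of_bound hm1.aestronglyMeasurable 1
      (Eventually.of_forall fun z => (Circle.norm_coe _).le)
  have hL0 : MemLp (fun z : X × Dual M => ((z.2 m' : Circle) : ℂ)) 2 P :=
    MemLp.of_bound hm0.aestronglyMeasurable 1
      (Eventually.of_forall fun z => (Circle.norm_coe _).le)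
  set U : Lp ℂ 2 P →L[ℂ] Lp ℂ 2 P :=
    (Lp.compMeasurePreservingₗᵢ ℂ T hT).toContinuousLinearMap with hU
  have hUn : ‖U‖ ≤ 1 := LinearIsometry.norm_toContinuousLinearMap_le _
  set e1 : Lp ℂ 2 P := hL1.toLp _ with he1
  set e0 : Lp ℂ 2 P := hL0.toLp _ with he0
  have hUc : ∀ f, U f = Lp.compMeasurePreserving T hT f := fun f => rfl
  have hUit : ∀ n : ℕ, (⇑U)^[n] e1 = Lp.compMeasurePreserving T^[n] (hT.iterate n) e1 := by
    intro n
    rw [← Lp.compMeasurePreserving_iterate hT n]
    rfl
  have hin : ∀ n : ℕ, inner ℂ e0 ((⇑U)^[n] e1) =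
      ((μ.real {x | cv S φ n x • m = m'} : ℝ) : ℂ) := by
    intro n
    rw [hUit n, he1, Lp.toLp_compMeasurePreserving, L2.inner_def,
      ← TE_aux_val μ S hS φ hφ ν hν m m' n]
    refine integral_congr_ae ?_
    filter_upwards [hL0.coeFn_toLp, (hL1.comp_measurePreserving (hT.iterate n)).coeFn_toLp]
      with z h1 h2
    rw [he0, h1, h2, RCLike.inner_apply]
    simp only [Function.comp_apply]
    ring
  have hlim := U.tendsto_birkhoffAverage_orthogonalProjection hUn e1
  set hp := (U.eqLocus (1 : Lp ℂ 2 P →L[ℂ] Lp ℂ 2 P)).orthogonalProjectionOnto e1 with hpdef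
  have hfix : U (hp : Lp ℂ 2 P) = hp := by
    have := hp.2
    rw [LinearMap.mem_eqLocus] at this
    exact this
  have hlim2 : Tendsto (fun N : ℕ => inner ℂ e0 (birkhoffAverage ℂ U _root_.id N e1)) atTop
      (𝓝 (inner ℂ e0 (hp : Lp ℂ 2 P))) := tendsto_const_nhds.inner hlim
  have hav : ∀ N : ℕ, inner ℂ e0 (birkhoffAverage ℂ U _root_.id N e1) =
      (((N : ℝ)⁻¹ * ∑ n ∈ Finset.range N, μ.real {x | cv S φ n x • m = m'} : ℝ) : ℂ) := by
    intro N
    rw [birkhoffAverage, birkhoffSum, inner_smul_right, inner_sum]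
    push_cast
    congr 1
    exact Finset.sum_congr rfl fun n _ => hin n
  -- the limit is zero
  have hzero : inner ℂ e0 (hp : Lp ℂ 2 P) = 0 := by
    have h1 := Lp.coeFn_compMeasurePreserving (hp : Lp ℂ 2 P) hT
    rw [← hUc, hfix] at h1
    obtain ⟨a, ha⟩ := h.ae_eq_const_of_ae_eq_comp_ae (Lp.aestronglyMeasurable (hp : Lp ℂ 2 P))
      h1.symm
    have h2 : inner ℂ e0 (hp : Lp ℂ 2 P) =
        ∫ z, (starRingEnd ℂ) ((z.2 m' : Circle) : ℂ) * a ∂P := by
      rw [L2.inner_def]
      refine integral_congr_ae ?_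
      filter_upwards [hL0.coeFn_toLp, ha] with z h3 h4
      rw [he0, h3, h4, RCLike.inner_apply]
      simp only [Function.const_apply]
      ring
    rw [h2, integral_mul_const, integral_conj]
    have h5 : ∫ z, ((z.2 m' : Circle) : ℂ) ∂P = 0 := by
      rw [hP, integral_prod]
      · have h6 : ∀ x : X, ∫ y, ((((x, y) : X × Dual M).2 m' : Circle) : ℂ) ∂ν = 0 :=
          fun x => H567MM.int_char ν hν m' hm'
        rw [integral_congr_ae (Eventually.of_forall h6)]
        simp
      · exact Integrable.of_bound (C := 1) hm0.aestronglyMeasurable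
          (Eventually.of_forall fun z => (Circle.norm_coe _).le)
    rw [h5]
    simp
  rw [hzero] at hlim2
  have h3 := (hlim2.norm).eventually (gt_mem_nhds (by simpa using hc : ‖(0 : ℂ)‖ < c))
  obtain ⟨N₀, hN₀⟩ := eventually_atTop.1 h3
  refine ⟨max N₀ 1, fun N hN => ?_⟩
  have h4 := hN₀ N ((le_max_left _ _).trans hN)
  have hN0 : (0 : ℝ) < N := by
    have : 1 ≤ N := (le_max_right _ _).trans hN
    exact_mod_cast this
  rw [hav N, Complex.norm_real] at h4
  have h5 := (le_abs_self _).trans_lt h4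
  rw [inv_mul_eq_div, div_lt_iff₀ hN0] at h5
  exact h5

end H567MM.P
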