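import Pool.Agent.H567R2.MN.Stubs

set_option autoImplicit false

namespace H567MM.P

open H567MM MeasureTheory

/-- finitely many elements of the union of a chain lie in one member of the chain -/
theorem ZO_aux_mem {R M : Type*} [CommRing R] [AddCommGroup M] [Module R M]
    (c : Set (Submodule R M)) (hc : IsChain (· ≤ ·) c) (hne : c.Nonempty) {ι : Type*}
    (s : Finset ι) (m : ι → M) (hm : ∀ j ∈ s, m j ∈ sSup c) : ∃ L ∈ c, ∀ j ∈ s, m j ∈ L := by
  classical
  induction s using Finset.induction_on with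
  | empty =>
    obtain ⟨L, hL⟩ := hne
    exact ⟨L, hL, fun j hj => absurd hj (Finset.notMem_empty j)⟩
  | insert a s _ ih =>
    obtain ⟨L, hL, h1⟩ := ih fun j hj => hm j (Finset.mem_insert_of_mem hj)
    obtain ⟨L', hL', h2⟩ := (Submodule.mem_sSup_of_directed hne hc.directedOn).1
      (hm a (Finset.mem_insert_self a s))
    rcases hc.total hL hL' with h | h
    · refine ⟨L', hL', fun j hj => ?_⟩
      rcases Finset.mem_insert.1 hj with rfl | hj
      · exact h2
      · exact h (h1 j hj)
    · refine ⟨L, hL, fun j hj => ?_⟩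
      rcases Finset.mem_insert.1 hj with rfl | hj
      · exact h h2
      · exact h1 j hj

theorem exists_max {X R M : Type*} [MeasurableSpace X] (μ : Measure X)
    (S : X → X) [CommRing R] [AddCommGroup M] [Module R M] (φ : X → Rˣ) (α : X → Dual M)
    (ν : Measure (Dual M)) (k : ℕ) (h0 : PL μ ν S φ α k ⊥) :
    ∃ L : Submodule R M, PL μ ν S φ α k L ∧ ∀ L' : Submodule R M, L < L' →
      ¬ PL μ ν S φ α k L' := by
  obtain ⟨L, -, hL⟩ := zorn_le_nonempty₀ {L : Submodule R M | PL μ ν S φ α k L} (by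
    intro c hcs hc y hy
    refine ⟨sSup c, ?_, fun z hz => le_sSup hz⟩
    intro A m hA hm
    obtain ⟨L, hL, h1⟩ := ZO_aux_mem c hc ⟨y, hy⟩ Finset.univ m fun j _ => hm j
    exact hcs hL A m hA fun j => h1 j (Finset.mem_univ j)) ⊥ h0
  refine ⟨L, hL.prop, fun L' hlt hL' => ?_⟩
  exact hlt.not_ge (hL.le_of_ge hL' hlt.le)

end H567MM.P
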